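import Pool.Agent.Lib_helper72.KX.Sh
import Pool.Agent.Lib_helper72.KX.Dv
import Pool.Agent.Lib_helper72.KC.P

/-!
# A point of order ten: a fast enumeration
-/

set_option autoImplicit false
set_option linter.unusedSectionVars false
set_option linter.unusedSimpArgs false
set_option linter.unusedVariables false

namespace Pool.Agent.KX

open KC72
open Pool.Agent.K7 (dot pos neg rot mkD code)

/-- all numbers below `n` -/
noncomputable def allN (f : ℕ → Bool) (n : ℕ) : Bool :=
  Nat.rec (motive := fun _ => Bool) true (fun m r => f m && r) n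

lemma allN_spec {f : ℕ → Bool} {n : ℕ} (h : allN f n = true) : ∀ m < n, f m = true := by
  induction n with
  | zero => intro m hm; omega
  | succ n ih =>
    intro m hm
    change (f n && allN f n) = true at h
    rw [Bool.and_eq_true] at h
    rcases Nat.lt_succ_iff_lt_or_eq.mp hm with h1 | rfl
    · exact ih h.2 m h1
    · exact h.1

lemma enF_succ {chk : List ℤ → Bool} {k p q : ℕ} {l : List ℤ}
    (h1 : ∀ v, v ≤ p → enF chk k (p - v) q (Int.ofNat v :: l) = true)
    (h2 : ∀ v, v < q → enF chk k p (q - (v + 1)) (Int.negSucc v :: l) = true) :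
    enF chk (k + 1) p q l = true := by
  unfold enF
  rw [Bool.and_eq_true, List.all_eq_true, List.all_eq_true]
  exact ⟨fun v hv => h1 v (by have := List.mem_range.mp hv; omega),
    fun v hv => h2 v (List.mem_range.mp hv)⟩

lemma enF_of {chk : List ℤ → Bool} : ∀ (k p q : ℕ) (l : List ℤ),
    (∀ v : List ℤ, v.length = k → pos v ≤ p → neg v ≤ q → chk (v.reverse ++ l) = true) →
    enF chk k p q l = true := by
  intro k
  induction k with
  | zero =>
    intro p q l h
    exact h [] rfl (Nat.zero_le _) (Nat.zero_le _)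
  | succ k ih =>
    intro p q l h
    refine enF_succ (fun v hv => ih _ _ _ fun u hu hp hq => ?_)
      (fun v hv => ih _ _ _ fun u hu hp hq => ?_)
    · have e := h (Int.ofNat v :: u) (by rw [List.length_cons, hu]) ?_ ?_
      · rwa [List.reverse_cons, List.append_assoc, List.singleton_append] at e
      · show (Int.ofNat v).toNat + pos u ≤ p
        have : (Int.ofNat v).toNat = v := rfl
        omega
      · show (-(Int.ofNat v)).toNat + neg u ≤ q
        have : (-(Int.ofNat v)).toNat = 0 := by simp
        omega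
    · have e := h (Int.negSucc v :: u) (by rw [List.length_cons, hu]) ?_ ?_
      · rwa [List.reverse_cons, List.append_assoc, List.singleton_append] at e
      · show (Int.negSucc v).toNat + pos u ≤ p
        have : (Int.negSucc v).toNat = 0 := rfl
        omega
      · show (-(Int.negSucc v)).toNat + neg u ≤ q
        have : (-(Int.negSucc v)).toNat = v + 1 := by rw [Int.neg_negSucc]; rfl
        omega

lemma dot_append : ∀ (x y u v : List ℤ), x.length = y.length →
    dot (x ++ u) (y ++ v) = dot x y + dot u v := by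
  intro x
  induction x with
  | nil =>
    intro y u v h
    have : y = [] := List.length_eq_zero_iff.mp h.symm
    subst this
    simp [dot]
  | cons a x ih =>
    intro y u v h
    cases y with
    | nil => simp at h
    | cons b y =>
      rw [List.cons_append, List.cons_append]
      show a * b + dot (x ++ u) (y ++ v) = (a * b + dot x y) + dot u v
      rw [ih y u v (by simpa using h)]
      ring

lemma dot_reverse : ∀ (x y : List ℤ), x.length = y.length →
    dot x.reverse y.reverse = dot x y := by
  intro x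
  induction x with
  | nil =>
    intro y h
    have : y = [] := List.length_eq_zero_iff.mp h.symm
    subst this
    rfl
  | cons a x ih =>
    intro y h
    cases y with
    | nil => simp at h
    | cons b y =>
      have h' : x.length = y.length := by simpa using h
      rw [List.reverse_cons, List.reverse_cons, dot_append _ _ _ _ (by simp [h']), ih y h']
      show dot x y + (a * b + 0) = a * b + dot x y
      ring

lemma dot_bound {M : ℕ} : ∀ (x v : List ℤ), (∀ a ∈ x, |a| ≤ (M : ℤ)) →
    |dot x v| ≤ (M : ℤ) * ((pos v : ℤ) + (neg v : ℤ)) := by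
  intro x
  induction x with
  | nil =>
    intro v _
    have : dot [] v = 0 := by cases v <;> rfl
    rw [this, abs_zero]
    positivity
  | cons a x ih =>
    intro v h
    cases v with
    | nil =>
      show |(0 : ℤ)| ≤ _
      rw [abs_zero]
      positivity
    | cons b v =>
      have h1 := ih v (fun c hc => h c (List.mem_cons_of_mem _ hc))
      have h2 : |a| ≤ (M : ℤ) := h a List.mem_cons_self
      have h3 : |b| = ((b.toNat : ℕ) : ℤ) + (((-b).toNat : ℕ) : ℤ) := by
        rcases le_total 0 b with hb | hb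
        · rw [abs_of_nonneg hb]; omega
        · rw [abs_of_nonpos hb]; omega
      have e1 : dot (a :: x) (b :: v) = a * b + dot x v := rfl
      have e2 : (pos (b :: v) : ℤ) = ((b.toNat : ℕ) : ℤ) + (pos v : ℤ) := by
        have : pos (b :: v) = b.toNat + pos v := rfl
        rw [this]; push_cast; ring
      have e3 : (neg (b :: v) : ℤ) = (((-b).toNat : ℕ) : ℤ) + (neg v : ℤ) := by
        have : neg (b :: v) = (-b).toNat + neg v := rfl
        rw [this]; push_cast; ring
      rw [e1, e2, e3]
      calc |a * b + dot x v| ≤ |a * b| + |dot x v| := abs_add_le _ _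
        _ ≤ (M : ℤ) * |b| + (M : ℤ) * ((pos v : ℤ) + (neg v : ℤ)) := by
          rw [abs_mul]
          exact add_le_add (mul_le_mul_of_nonneg_right h2 (abs_nonneg b)) h1
        _ = _ := by rw [h3]; ring

/-- no small multiple -/
def cut (d B s : ℕ) : Bool := and (Nat.ble (Nat.succ B) s) (Nat.ble (Nat.succ (Nat.add s B)) d)

lemma cut_spec {d B a : ℕ} (h : cut d B (a % d) = true) {x : ℤ} (hx : |x| ≤ (B : ℤ)) :
    ¬ ((d : ℤ) ∣ (a : ℤ) + x) := by
  change (and (Nat.ble (B + 1) (a % d)) (Nat.ble (a % d + B + 1) d)) = true at h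
  rw [Bool.and_eq_true, Nat.ble_eq, Nat.ble_eq] at h
  obtain ⟨h1, h2⟩ := h
  have h1 : B < a % d := h1
  have h2 : a % d + B < d := h2
  intro hd
  have e1 : (a : ℤ) = (d : ℤ) * ((a / d : ℕ) : ℤ) + ((a % d : ℕ) : ℤ) := by
    exact_mod_cast (Nat.div_add_mod a d).symm
  have e2 : (d : ℤ) ∣ ((a % d : ℕ) : ℤ) + x := by
    have e3 : ((a % d : ℕ) : ℤ) + x = ((a : ℤ) + x) - (d : ℤ) * ((a / d : ℕ) : ℤ) := by
      rw [e1]
      have : ((d * (a / d) + a % d : ℕ) : ℤ) = (d : ℤ) * ((a / d : ℕ) : ℤ) + ((a % d : ℕ) : ℤ) := by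
        push_cast; ring
      ring
    rw [e3]
    exact dvd_sub hd (dvd_mul_right _ _)
  obtain ⟨b1, b2⟩ := abs_le.mp hx
  have p1 : 0 < ((a % d : ℕ) : ℤ) + x := by
    have : (B : ℤ) < ((a % d : ℕ) : ℤ) := by exact_mod_cast h1
    linarith
  have p2 : ((a % d : ℕ) : ℤ) + x < (d : ℤ) := by
    have : ((a % d : ℕ) : ℤ) + (B : ℤ) < (d : ℤ) := by exact_mod_cast h2
    linarith
  exact absurd (Int.le_of_dvd p1 e2) (by linarith)

/-- enumeration with a modular filter -/
noncomputable def enG (chk : List ℤ → Bool) (d : ℕ) (cs : List (ℕ × ℕ × ℕ)) :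
    ℕ → ℕ → ℕ → List ℤ → Bool :=
  List.rec (motive := fun _ => ℕ → ℕ → ℕ → List ℤ → Bool)
    (fun _ _ a l => or (not (Nat.beq (Nat.mod a d) 0)) (chk l))
    (fun c _ ih p q a l => or (cut d (Nat.mul c.2.2 (Nat.add p q)) (Nat.mod a d))
      (and (allN (fun v => ih (Nat.sub p v) q (Nat.add a (Nat.mul v c.1)) (Int.ofNat v :: l))
        (Nat.succ p))
      (allN (fun v => ih p (Nat.sub q (Nat.succ v)) (Nat.add a (Nat.mul (Nat.succ v) c.2.1))
        (Int.negSucc v :: l)) q))) cs

/-- the residues and bounds of the coefficients -/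
def okW (d : ℤ) : ℕ → List (ℕ × ℕ × ℕ) → List ℤ → Bool
  | _, [], [] => true
  | M, c :: cs, x :: xs => ((x - Int.ofNat c.1) % d == 0) && (((x + Int.ofNat c.2.1) % d == 0) &&
      (Nat.ble x.natAbs c.2.2 && (Nat.ble c.2.2 M && okW d c.2.2 cs xs)))
  | _, _, _ => false

lemma okW_bound {d : ℤ} : ∀ {cs : List (ℕ × ℕ × ℕ)} {xs : List ℤ} {M : ℕ},
    okW d M cs xs = true → cs.length = xs.length ∧ ∀ a ∈ xs, |a| ≤ (M : ℤ) := by
  intro cs
  induction cs with
  | nil =>
    intro xs M h
    cases xs with
    | nil => exact ⟨rfl, fun a ha => absurd ha (by simp)⟩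
    | cons x xs => exact absurd h (by simp [okW])
  | cons c cs ih =>
    intro xs M h
    cases xs with
    | nil => exact absurd h (by simp [okW])
    | cons x xs =>
      unfold okW at h
      simp only [Bool.and_eq_true, Nat.ble_eq] at h
      obtain ⟨-, -, h3, h4, h5⟩ := h
      obtain ⟨i1, i2⟩ := ih h5
      refine ⟨by rw [List.length_cons, List.length_cons, i1], fun a ha => ?_⟩
      have hM : (c.2.2 : ℤ) ≤ (M : ℤ) := by exact_mod_cast h4
      rcases List.mem_cons.mp ha with rfl | ha
      · refine le_trans ?_ hM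
        rw [Int.abs_eq_natAbs]
        exact_mod_cast h3
      · exact (i2 a ha).trans hM

theorem enG_spec {chk : List ℤ → Bool} {d : ℕ} {w : List ℤ}
    (hchk : ∀ l, ¬ ((d : ℤ) ∣ dot w l) → chk l = true) :
    ∀ (cs : List (ℕ × ℕ × ℕ)) (w1 w2 : List ℤ) (M p q a : ℕ) (l : List ℤ),
      w = w1.reverse ++ w2 → okW d M cs w1 = true → (d : ℤ) ∣ (a : ℤ) - dot w2 l →
      enG chk d cs p q a l = true → enF chk cs.length p q l = true := by
  intro cs
  induction cs with
  | nil =>
    intro w1 w2 M p q a l hw ho ha h
    cases w1 with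
    | cons x xs => exact absurd ho (by simp [okW])
    | nil =>
      rw [List.reverse_nil, List.nil_append] at hw
      subst hw
      change (!(Nat.beq (a % d) 0) || chk l) = true at h
      rw [Bool.or_eq_true, Bool.not_eq_true'] at h
      show chk l = true
      rcases h with h | h
      · refine hchk l fun hd => ?_
        have h1 : (d : ℤ) ∣ (a : ℤ) := by
          have := dvd_add ha hd
          rwa [sub_add_cancel] at this
        have h2 : a % d = 0 := Nat.mod_eq_zero_of_dvd (Int.natCast_dvd_natCast.mp h1)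
        rw [h2] at h
        exact absurd h (by decide)
      · exact h
  | cons c cs ih =>
    intro w1 w2 M p q a l hw ho ha h
    cases w1 with
    | nil => exact absurd ho (by simp [okW])
    | cons x xs =>
      obtain ⟨l1, l2⟩ := okW_bound ho
      have ho' := ho
      unfold okW at ho'
      simp only [Bool.and_eq_true, beq_iff_eq, Nat.ble_eq] at ho'
      obtain ⟨o1, o2, o3, o4, o5⟩ := ho'
      have d1 : (d : ℤ) ∣ x - (c.1 : ℤ) := Int.dvd_of_emod_eq_zero o1
      have d2 : (d : ℤ) ∣ x + (c.2.1 : ℤ) := Int.dvd_of_emod_eq_zero o2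
      change (cut d (c.2.2 * (p + q)) (a % d) ||
        (allN (fun v => enG chk d cs (p - v) q (a + v * c.1) (Int.ofNat v :: l)) (p + 1) &&
        allN (fun v => enG chk d cs p (q - (v + 1)) (a + (v + 1) * c.2.1) (Int.negSucc v :: l)) q))
        = true at h
      rw [Bool.or_eq_true] at h
      rcases h with h | h
      · -- no small multiple
        refine enF_of _ _ _ _ fun v hv hp hq => hchk _ fun hd => ?_
        obtain ⟨m1, m2⟩ := okW_bound o5
        have hb : ∀ a ∈ x :: xs, |a| ≤ ((c.2.2 : ℕ) : ℤ) := by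
          intro a ha'
          rcases List.mem_cons.mp ha' with rfl | ha'
          · rw [Int.abs_eq_natAbs]
            exact_mod_cast o3
          · exact m2 a ha'
        have hl : (x :: xs).length = v.length := by rw [← l1, hv]
        have e1 : dot w (v.reverse ++ l) = dot (x :: xs) v + dot w2 l := by
          rw [hw, dot_append _ _ _ _ (by simpa using hl), dot_reverse _ _ hl]
        have hB : |dot (x :: xs) v| ≤ ((c.2.2 * (p + q) : ℕ) : ℤ) := by
          refine (dot_bound (M := c.2.2) _ v hb).trans ?_
          push_cast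
          refine mul_le_mul_of_nonneg_left ?_ (by positivity)
          have h1 : (pos v : ℤ) ≤ (p : ℤ) := by exact_mod_cast hp
          have h2 : (neg v : ℤ) ≤ (q : ℤ) := by exact_mod_cast hq
          linarith
        refine cut_spec h hB ?_
        have := dvd_add ha hd
        rw [e1] at this
        have e2 : (a : ℤ) - dot w2 l + (dot (x :: xs) v + dot w2 l) = (a : ℤ) + dot (x :: xs) v := by
          ring
        rwa [e2] at this
      · rw [Bool.and_eq_true] at h
        have hw' : w = xs.reverse ++ (x :: w2) := by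
          rw [hw, List.reverse_cons, List.append_assoc, List.singleton_append]
        refine enF_succ (fun v hv => ?_) (fun v hv => ?_)
        · refine ih xs (x :: w2) _ _ _ _ _ hw' o5 ?_ (allN_spec h.1 v (by omega))
          show (d : ℤ) ∣ ((a + v * c.1 : ℕ) : ℤ) - (x * Int.ofNat v + dot w2 l)
          have e : ((a + v * c.1 : ℕ) : ℤ) - (x * Int.ofNat v + dot w2 l) =
              ((a : ℤ) - dot w2 l) - (x - (c.1 : ℤ)) * v := by
            push_cast
            rw [Int.ofNat_eq_natCast]
            ring
          rw [e]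
          exact dvd_sub ha (Dvd.dvd.mul_right d1 _)
        · refine ih xs (x :: w2) _ _ _ _ _ hw' o5 ?_ (allN_spec h.2 v hv)
          show (d : ℤ) ∣ ((a + (v + 1) * c.2.1 : ℕ) : ℤ) - (x * Int.negSucc v + dot w2 l)
          have e : ((a + (v + 1) * c.2.1 : ℕ) : ℤ) - (x * Int.negSucc v + dot w2 l) =
              ((a : ℤ) - dot w2 l) + (x + (c.2.1 : ℤ)) * (v + 1) := by
            push_cast
            rw [Int.negSucc_eq]
            ring
          rw [e]
          exact dvd_add ha (Dvd.dvd.mul_right d2 _)

lemma dot_axpy (a : ℤ) : ∀ x y v : List ℤ, dot (axpy a x y) v = a * dot x v + dot y v := by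
  intro x
  induction x with
  | nil => intro y v; simp [axpy, dot]
  | cons x xs ih =>
    intro y v
    cases y with
    | nil =>
      cases v with
      | nil => simp [axpy, dot]
      | cons v vs =>
        show a * x * v + dot (axpy a xs []) vs = a * (x * v + dot xs vs) + 0
        rw [ih]
        simp only [dot]
        ring
    | cons y ys =>
      cases v with
      | nil => simp [axpy, dot]
      | cons v vs =>
        show (a * x + y) * v + dot (axpy a xs ys) vs = a * (x * v + dot xs vs) + (y * v + dot ys vs)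
        rw [ih]
        ring

lemma dot_comb : ∀ (r : List ℤ) (B : List (List ℤ)) (v : List ℤ),
    dot (comb r B) v = dot r (B.map (fun b => dot b v)) := by
  intro r
  induction r with
  | nil => intro B v; simp [comb, dot]
  | cons r rs ih =>
    intro B v
    cases B with
    | nil => simp [comb, dot]
    | cons b bs =>
      unfold comb
      split_ifs with h
      · rw [ih, List.map_cons]
        show _ = r * dot b v + _
        rw [h, zero_mul, zero_add]
      · rw [dot_axpy, ih, List.map_cons]
        rfl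

lemma dot_map_mul (r : List ℤ) (x : List ℤ) (d : ℤ) :
    dot r (x.map (fun t => d * t)) = d * dot r x := by
  induction r generalizing x with
  | nil => simp [dot]
  | cons a r ih =>
    cases x with
    | nil => simp [dot]
    | cons b x =>
      rw [List.map_cons]
      show a * (d * b) + dot r _ = d * (a * b + dot r x)
      rw [ih]; ring

/-- congruent coefficients -/
def cgL (m : ℤ) : List ℤ → List ℤ → Bool
  | [], [] => true
  | a :: l, b :: l' => ((a - b) % m == 0) && cgL m l l'
  | _, _ => false

lemma dot_cgL {m : ℤ} : ∀ {r r' : List ℤ} (x : List ℤ), cgL m r r' = true →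
    m ∣ dot r x - dot r' x := by
  intro r
  induction r with
  | nil =>
    intro r' x h
    cases r' with
    | nil => simp [dot]
    | cons b l' => exact absurd h (by simp [cgL])
  | cons a l ih =>
    intro r' x h
    cases r' with
    | nil => exact absurd h (by simp [cgL])
    | cons b l' =>
      unfold cgL at h
      rw [Bool.and_eq_true, beq_iff_eq] at h
      cases x with
      | nil => simp [dot]
      | cons y x =>
        have e : dot (a :: l) (y :: x) - dot (b :: l') (y :: x) = (a - b) * y + (dot l x - dot l' x) := by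
          show (a * y + dot l x) - (b * y + dot l' x) = _
          ring
        rw [e]
        exact dvd_add (Dvd.dvd.mul_right (Int.dvd_of_emod_eq_zero h.1) _) (ih x h.2)

/-- the weights -/
noncomputable def wts : List ℤ := [.ofNat 0, .ofNat 1, .ofNat 2, .ofNat 3, .ofNat 4, .ofNat 5,
  .ofNat 6, .ofNat 7, .ofNat 8, .ofNat 9]

lemma leaf_div {S : Sys} {r l : List ℤ} {t : ℤ}
    (hr : cgL 10 r (wts.map (fun i => t * i)) = true)
    (e1 : S.B.map (fun b => dot b l) = (S.full l).map (fun t => S.den * t))
    (h4 : wtc (S.full l) = true) : 10 * S.den ∣ dot (comb r S.B) l := by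
  rw [dot_comb, e1, dot_map_mul]
  have h5 : (10 : ℤ) ∣ dot wts (S.full l) := by
    unfold wtc at h4
    rw [beq_iff_eq] at h4
    exact Int.dvd_of_emod_eq_zero h4
  have h6 : (10 : ℤ) ∣ dot r (S.full l) := by
    have e2 : dot (wts.map (fun i => t * i)) (S.full l) = t * dot wts (S.full l) := by
      have : ∀ x y : List ℤ, dot (x.map (fun i => t * i)) y = t * dot x y := by
        intro x
        induction x with
        | nil => intro y; simp [dot]
        | cons a x ih =>
          intro y
          cases y with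
          | nil => simp [dot]
          | cons b y =>
            rw [List.map_cons]
            show t * a * b + dot _ y = t * (a * b + dot x y)
            rw [ih]; ring
      exact this _ _
    have := dvd_add (dot_cgL (S.full l) hr) (e2 ▸ Dvd.dvd.mul_left h5 t)
    rwa [sub_add_cancel] at this
  rw [mul_comm (10 : ℤ)]
  exact mul_dvd_mul_left _ h6

/-! ### equality -/

/-- equality of integers -/
noncomputable def ieq (a b : ℤ) : Bool :=
  Int.rec (motive := fun _ => Bool) (fun m => Int.rec (motive := fun _ => Bool)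
    (fun n => Nat.beq m n) (fun _ => false) b) (fun m => Int.rec (motive := fun _ => Bool)
    (fun _ => false) (fun n => Nat.beq m n) b) a

lemma ieq_eq {a b : ℤ} (h : ieq a b = true) : a = b := by
  rcases a with a | a <;> rcases b with b | b
  · exact congrArg Int.ofNat (Nat.eq_of_beq_eq_true h)
  · exact absurd h (by simp [ieq])
  · exact absurd h (by simp [ieq])
  · exact congrArg Int.negSucc (Nat.eq_of_beq_eq_true h)

/-- equality of lists -/
noncomputable def leq (l : List ℤ) : List ℤ → Bool :=
  List.rec (motive := fun _ => List ℤ → Bool)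
    (fun m => List.rec (motive := fun _ => Bool) true (fun _ _ _ => false) m)
    (fun a _ ih m => List.rec (motive := fun _ => Bool) false (fun b bs _ => and (ieq a b) (ih bs)) m) l

lemma leq_eq : ∀ {l m : List ℤ}, leq l m = true → l = m := by
  intro l
  induction l with
  | nil =>
    intro m h
    cases m with
    | nil => rfl
    | cons b m => exact absurd (show false = true from h) (by decide)
  | cons a l ih =>
    intro m h
    cases m with
    | nil => exact absurd (show false = true from h) (by decide)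
    | cons b m =>
      have h' : (and (ieq a b) (leq l m)) = true := h
      rw [Bool.and_eq_true] at h'
      rw [ieq_eq h'.1, ih h'.2]

/-! ### fast versions of the functions on lists -/

/-- the product of a row and a column -/
noncomputable def dotJ (l : List ℤ) : List ℤ → ℤ :=
  List.rec (motive := fun _ => List ℤ → ℤ) (fun _ => .ofNat 0) (fun a _ ih m =>
    List.rec (motive := fun _ => ℤ) (.ofNat 0) (fun b bs _ => Int.add (Int.mul a b) (ih bs)) m) l

lemma dotJ_eq : ∀ l m : List ℤ, dotJ l m = dot l m := by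
  intro l
  induction l with
  | nil => intro m; cases m <;> rfl
  | cons a l ih =>
    intro m
    cases m with
    | nil => rfl
    | cons b m =>
      show Int.add (Int.mul a b) (dotJ l m) = a * b + dot l m
      rw [ih]; rfl

/-- division by a natural number -/
noncomputable def edv (x : ℤ) (d : ℕ) : ℤ :=
  Int.rec (motive := fun _ => ℤ) (fun n => Int.ofNat (Nat.div n d)) (fun n => Int.negSucc (Nat.div n d)) x

lemma edv_eq (x : ℤ) {d : ℕ} (hd : d ≠ 0) : edv x d = x / (Int.ofNat d) := by
  obtain ⟨d, rfl⟩ := Nat.exists_eq_succ_of_ne_zero hd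
  rcases x with n | n <;> rfl

/-- all coordinates -/
noncomputable def fullJ (d : ℕ) (v : List ℤ) (B : List (List ℤ)) : List ℤ :=
  List.rec (motive := fun _ => List ℤ) [] (fun r _ ih => edv (dotJ r v) d :: ih) B

lemma fullJ_eq {S : Sys} {d : ℕ} (hd : d ≠ 0) (hS : S.den = Int.ofNat d) (v : List ℤ) :
    fullJ d v S.B = S.full v := by
  unfold Sys.full
  rw [hS]
  induction S.B with
  | nil => rfl
  | cons r B ih =>
    show edv (dotJ r v) d :: fullJ d v B = _
    rw [ih, dotJ_eq, edv_eq _ hd]
    rfl

/-- the positive part -/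
noncomputable def posJ (l : List ℤ) : ℕ :=
  List.rec (motive := fun _ => ℕ) 0 (fun a _ ih =>
    Int.rec (motive := fun _ => ℕ) (fun n => Nat.add n ih) (fun _ => ih) a) l

/-- the negative part -/
noncomputable def negJ (l : List ℤ) : ℕ :=
  List.rec (motive := fun _ => ℕ) 0 (fun a _ ih =>
    Int.rec (motive := fun _ => ℕ) (fun _ => ih) (fun n => Nat.succ (Nat.add n ih)) a) l

lemma posJ_eq (l : List ℤ) : posJ l = pos l := by
  induction l with
  | nil => rfl
  | cons a l ih =>
    have e : pos (a :: l) = a.toNat + pos l := rfl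
    rw [e, ← ih]
    rcases a with n | n
    · rfl
    · show posJ l = 0 + posJ l
      rw [zero_add]

lemma negJ_eq (l : List ℤ) : negJ l = neg l := by
  induction l with
  | nil => rfl
  | cons a l ih =>
    have e : neg (a :: l) = (-a).toNat + neg l := rfl
    rw [e, ← ih]
    rcases a with n | n
    · show negJ l = (-(Int.ofNat n)).toNat + negJ l
      have : (-(Int.ofNat n)).toNat = 0 := by simp
      rw [this, zero_add]
    · show Nat.succ (n + negJ l) = (-(Int.negSucc n)).toNat + negJ l
      have : (-(Int.negSucc n)).toNat = n + 1 := by rw [Int.neg_negSucc]; rfl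
      rw [this]; omega

/-- congruence of integers -/
noncomputable def igL (m : ℕ) (a b : ℤ) : Bool :=
  Int.rec (motive := fun _ => Bool) (fun n => Nat.beq (Nat.mod n m) 0)
    (fun n => Nat.beq (Nat.mod (Nat.succ n) m) 0) (Int.sub a b)

lemma igL_dvd {m : ℕ} {a b : ℤ} (h : igL m a b = true) : (m : ℤ) ∣ a - b := by
  unfold igL at h
  have e : Int.sub a b = a - b := rfl
  rw [e] at h
  rcases h2 : a - b with n | n
  · rw [h2] at h
    have h3 : n % m = 0 := Nat.eq_of_beq_eq_true h
    rw [Int.ofNat_eq_natCast]
    exact Int.natCast_dvd_natCast.mpr (Nat.dvd_of_mod_eq_zero h3)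
  · rw [h2] at h
    have h3 : (n + 1) % m = 0 := Nat.eq_of_beq_eq_true h
    rw [Int.negSucc_eq]
    have h4 : (m : ℤ) ∣ ((n + 1 : ℕ) : ℤ) := Int.natCast_dvd_natCast.mpr (Nat.dvd_of_mod_eq_zero h3)
    have : (m : ℤ) ∣ (n : ℤ) + 1 := by exact_mod_cast h4
    exact (dvd_neg).mpr this

/-! ### rotations -/

lemma rot10 {l : List ℤ} (h : l.length = 10) : rot^[10] l = l := by
  rcases l with _ | ⟨a0, _ | ⟨a1, _ | ⟨a2, _ | ⟨a3, _ | ⟨a4, _ | ⟨a5, _ | ⟨a6, _ | ⟨a7, _ |
    ⟨a8, _ | ⟨a9, _ | ⟨a10, l⟩⟩⟩⟩⟩⟩⟩⟩⟩⟩⟩ <;>
    first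
    | rfl
    | (exfalso; simp at h)

/-- the divisors belong to a class -/
def IsC (cls : List (Mo × Mo)) (D D' : List ℤ) : Prop := ∃ p : ℕ × ℕ, p.1 < cls.length ∧
  p.2 < 6 ∧ divl (oo cls p).2 = D ∧ divl (co cls p).2 = D'

/-- the divisors belong to a class, after a rotation -/
noncomputable def lookR (cls : List (Mo × Mo)) (D D' : List ℤ) : Bool :=
  @decide (∃ j : ℕ, IsC cls (rot^[j] D) (rot^[j] D')) (Classical.dec _)

lemma lookR_spec {cls : List (Mo × Mo)} {D D' : List ℤ} (h : lookR cls D D' = true) :
    ∃ j : ℕ, IsC cls (rot^[j] D) (rot^[j] D') :=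
  @of_decide_eq_true _ (Classical.dec _) h

lemma lk_of {look : List ℤ → List ℤ → Bool} : ∀ (n : ℕ) (D D' : List ℤ),
    (∀ j < n, look (rot^[j] D) (rot^[j] D') = true) → lk look n D D' = true := by
  intro n
  induction n with
  | zero => intro D D' _; rfl
  | succ n ih =>
    intro D D' h
    unfold lk
    rw [Bool.and_eq_true]
    refine ⟨h 0 (by omega), ih _ _ fun j hj => ?_⟩
    have := h (j + 1) (by omega)
    rwa [Function.iterate_succ_apply, Function.iterate_succ_apply] at this

lemma lk_lookR {cls : List (Mo × Mo)} {D D' : List ℤ} (h1 : D.length = 10) (h2 : D'.length = 10)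
    (h : IsC cls D D') : lk (lookR cls) 10 D D' = true := by
  refine lk_of 10 D D' fun j hj => ?_
  refine @decide_eq_true _ (Classical.dec _) ⟨10 - j, ?_⟩
  rw [← Function.iterate_add_apply, ← Function.iterate_add_apply, show 10 - j + j = 10 by omega,
    rot10 h1, rot10 h2]
  exact h

/-! ### the check of a leaf -/

/-- the check of all coordinates -/
noncomputable def lfX (C : Dat) (look : List ℤ → List ℤ → Bool) (n : ℕ) (aL x : List ℤ) : Bool :=
  or (not (Nat.beq (posJ x) n)) (or (not (Nat.beq (negJ x) n)) (or (not (wtc x))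
    (or (look (mkD aL x) x) (or (not (wtc (mkD aL x))) (not (okv C (mkD aL x) x))))))

/-- the check of a leaf -/
noncomputable def leafF (C : Dat) (look : List ℤ → List ℤ → Bool) (S : Sys) (d n : ℕ)
    (aL v : List ℤ) : Bool := or (lfX C look n aL (fullJ d v S.B)) (not (S.int v))

lemma mkD_length : ∀ a v : List ℤ, a.length = v.length → (mkD a v).length = v.length := by
  intro a
  induction a with
  | nil => intro v h; rw [List.length_eq_zero_iff.mp h.symm]; rfl
  | cons x a ih =>
    intro v h
    cases v with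
    | nil => simp at h
    | cons y v =>
      show (mkD a v).length + 1 = v.length + 1
      rw [ih v (by simpa using h)]

lemma leafF_leaf {C : Dat} {look : List ℤ → List ℤ → Bool}
    (h : ∀ D D' : List ℤ, D.length = 10 → D'.length = 10 → look D D' = true →
      lk C.look 10 D D' = true) {S : Sys} {d n : ℕ}
    {aL v : List ℤ} (hd : d ≠ 0) (hS : S.den = Int.ofNat d) (hB : S.B.length = 10)
    (ha : aL.length = 10)
    (hv : leafF C look S d n aL v = true) : leaf C S n aL v = true := by
  have hl : (S.full v).length = 10 := by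
    unfold Sys.full
    rw [List.length_map, List.length_map, hB]
  unfold leafF lfX at hv
  rw [fullJ_eq hd hS, posJ_eq, negJ_eq] at hv
  unfold leaf
  have b1 : ∀ m : ℕ, Nat.beq m n = (m == n) := fun m => by
    rw [Bool.eq_iff_iff, beq_iff_eq]
    exact ⟨Nat.eq_of_beq_eq_true, fun h => by rw [h]; exact Nat.beq_refl n⟩
  rw [b1, b1] at hv
  simp only [Bool.or_eq_true, Bool.not_eq_true'] at hv ⊢
  rcases hv with (hv | hv | hv | hv | hv | hv) | hv
  · exact Or.inr (Or.inl hv)
  · exact Or.inr (Or.inr (Or.inl hv))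
  · exact Or.inr (Or.inr (Or.inr (Or.inl hv)))
  · exact Or.inr (Or.inr (Or.inr (Or.inr (Or.inr (Or.inr
      (h _ _ (by rw [mkD_length _ _ (by rw [ha, hl]), hl]) hl hv))))))
  · exact Or.inr (Or.inr (Or.inr (Or.inr (Or.inl hv))))
  · exact Or.inr (Or.inr (Or.inr (Or.inr (Or.inr (Or.inl hv)))))
  · exact Or.inl hv

lemma leafF_filter {C : Dat} {look : List ℤ → List ℤ → Bool} {S : Sys} {d n : ℕ} {aL r : List ℤ}
    {t : ℤ} (hd : d ≠ 0) (hS : S.den = Int.ofNat d)
    (hr : cgL 10 r (wts.map (fun i => t * i)) = true) (l : List ℤ)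
    (h : ¬ (10 * S.den ∣ dot (comb r S.B) l)) : leafF C look S d n aL l = true := by
  by_contra hl
  rw [Bool.not_eq_true] at hl
  unfold leafF lfX at hl
  rw [fullJ_eq hd hS] at hl
  simp only [Bool.or_eq_false_iff, Bool.not_eq_false'] at hl
  obtain ⟨⟨-, -, h4, -⟩, h1⟩ := hl
  apply h
  have e1 : S.B.map (fun b => dot b l) = (S.full l).map (fun t => S.den * t) := by
    unfold Sys.full
    rw [List.map_map]
    unfold Sys.int at h1
    rw [List.all_eq_true] at h1
    have : ∀ x ∈ S.B.map (fun b => dot b l), ((fun t => S.den * t) ∘ fun x => x / S.den) x = x := by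
      intro x hx
      have := h1 x hx
      rw [beq_iff_eq] at this
      exact Int.mul_ediv_cancel' (Int.dvd_of_emod_eq_zero this)
    conv_lhs => rw [← List.map_id (S.B.map fun b => dot b l)]
    exact (List.map_congr_left this).symm
  exact leaf_div hr e1 h4

lemma enF_mono {f g : List ℤ → Bool} (h : ∀ l, f l = true → g l = true) : ∀ (k p q : ℕ)
    (l : List ℤ), enF f k p q l = true → enF g k p q l = true := by
  intro k
  induction k with
  | zero => intro p q l hl; exact h l hl
  | succ k ih =>
    intro p q l hl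
    unfold enF at hl ⊢
    rw [Bool.and_eq_true, List.all_eq_true, List.all_eq_true] at hl ⊢
    exact ⟨fun v hv => ih _ _ _ (hl.1 v hv), fun v hv => ih _ _ _ (hl.2 v hv)⟩

/-- the fast check of the enumeration -/
noncomputable def enC (C : Dat) (look : List ℤ → List ℤ → Bool) (ps : List (Fin 10))
    (e : List ℕ × Sys) (d : ℕ) (t : ℤ) (M n : ℕ)
    (r : List ℤ) (ws : List ℤ) (cs : List (ℕ × ℕ × ℕ)) (aL : List ℤ) : Bool :=
  and (not (Nat.beq d 0)) (and (ieq e.2.den (Int.ofNat d)) (and
    (cgL 10 r (wts.map (fun i => t * i))) (and (Nat.beq cs.length e.2.fr.length) (and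
    (cgL (Int.ofNat (Nat.mul 10 d)) (comb r e.2.B) ws.reverse) (and
    (okW (Int.ofNat (Nat.mul 10 d)) M cs ws) (and (Nat.beq e.1.sum n) (and
    (leq (tl (lkp ps e.1)) aL)
    (enG (leafF C look e.2 d n aL) (Nat.mul 10 d) cs n n 0 []))))))))

theorem chkE_fast {C : Dat} {look : List ℤ → List ℤ → Bool}
    (hlook : ∀ D D' : List ℤ, D.length = 10 → D'.length = 10 → look D D' = true →
      lk C.look 10 D D' = true)
    {ps : List (Fin 10)} {e : List ℕ × Sys} {d : ℕ} {t : ℤ} {M n : ℕ}
    {r ws : List ℤ} {cs : List (ℕ × ℕ × ℕ)} {aL : List ℤ} (h1 : e.2.ok (Rw C ps e.1) = true)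
    (h2 : frOK e.2 = true) (h : enC C look ps e d t M n r ws cs aL = true) :
    chkE C ps e = true := by
  unfold enC at h
  simp only [Bool.and_eq_true, Bool.not_eq_true'] at h
  obtain ⟨e0, e1, e3, e4, e5, e6, e7, e8, e9⟩ := h
  have hd0 : d ≠ 0 := by rintro rfl; exact absurd e0 (by decide)
  have hden : e.2.den = Int.ofNat d := ieq_eq e1
  have e4' := Nat.eq_of_beq_eq_true e4
  have e7' := Nat.eq_of_beq_eq_true e7
  have e8' := leq_eq e8
  have hB : e.2.B.length = 10 := by
    unfold Sys.ok at h1
    rw [Bool.and_eq_true, Bool.and_eq_true, decide_eq_true_eq, decide_eq_true_eq] at h1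
    exact h1.2.1
  have hd : ((Nat.mul 10 d : ℕ) : ℤ) = 10 * e.2.den := by
    rw [hden]
    show ((10 * d : ℕ) : ℤ) = 10 * (d : ℤ)
    push_cast; ring
  unfold chkE
  rw [Bool.and_eq_true, Bool.and_eq_true]
  refine ⟨h1, h2, ?_⟩
  rw [← e4', e7', e8']
  refine enF_mono (fun l hl => leafF_leaf hlook hd0 hden hB (by rw [← e8']; rfl) hl) _ _ _ _ ?_
  refine enG_spec (w := ws.reverse) (d := Nat.mul 10 d)
    (fun l hl => leafF_filter hd0 hden e3 l fun h3 => hl ?_) cs ws [] M _ _ 0 [] (by simp) e6 ?_ e9
  · rw [← hd] at h3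
    have h4 := dot_cgL (m := ((Nat.mul 10 d : ℕ) : ℤ)) l e5
    have h5 := dvd_sub h3 h4
    rwa [sub_sub_cancel] at h5
  · show ((Nat.mul 10 d : ℕ) : ℤ) ∣ ((0 : ℕ) : ℤ) - 0
    simp

/-- the table of solutions -/
lemma look_ok {tab : List (List (ℕ × ℕ × ℕ))} {cls : List (Mo × Mo)} {κ : Fin 11 → Fin 10 → ℤ}
    {ν : List (Fin 10 → ℤ)} {D D' : List ℤ} (h1 : D.length = 10) (h2 : D'.length = 10)
    (h : lookC tab cls D D' = true) : lk (Dat.look ⟨κ, ν, lookR cls⟩) 10 D D' = true :=
  lk_lookR h1 h2 (lookC_spec h)

end Pool.Agent.KX
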