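import Pool.Agent.Lib_helper72.KX.Dv
import Pool.Agent.Lib_helper72.K7S.T6

/-!
# A point of order ten: the classes under translation
-/

set_option autoImplicit false
set_option linter.unusedSectionVars false
set_option linter.unusedSimpArgs false
set_option linter.unusedVariables false

namespace Pool.Agent.KX

open KC72 TN
open Pool.Agent.K7 (orb6_orb Orb.compl' Orb.inv')

section

variable {F : Type*} [Field F]

lemma Orb.refl' (u : F) : Orb u u := Or.inl rfl

lemma Orb.trans' {u f g : F} (h0 : u ≠ 0) (h1 : u ≠ 1) (h : Orb u f) (h' : Orb f g) : Orb u g := by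
  have c1 := Orb.compl' h0 h1 h
  have c2 := Orb.inv' h0 h1 h
  have c3 := Orb.compl' h0 h1 c2
  have c4 := Orb.inv' h0 h1 c1
  have c5 := Orb.inv' h0 h1 c3
  rcases h' with e | e | e | e | e | e
  · rw [e]; exact h
  · rw [e]; exact c1
  · rw [e, one_div]; exact c2
  · rw [e, one_div]; exact c3
  · rw [e, one_div]; exact c4
  · have hf : f ≠ 0 := by
      rintro rfl
      rcases h with h | h | h | h | h | h
      · exact h0 h.symm
      · exact h1 (by linear_combination h)
      · exact one_div_ne_zero h0 h.symm
      · apply h1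
        field_simp at h
        linear_combination -h
      · have : 1 - u ≠ 0 := sub_ne_zero.mpr (Ne.symm h1)
        exact one_div_ne_zero this h.symm
      · have : u - 1 ≠ 0 := sub_ne_zero.mpr h1
        exact div_ne_zero h0 this h.symm
    have e2 : f / (f - 1) = (1 - f⁻¹)⁻¹ := by
      rw [show 1 - f⁻¹ = (f - 1) / f by field_simp, inv_div]
    rw [e, e2]; exact c5

lemma Orb.symm' {u f : F} (h0 : u ≠ 0) (h1 : u ≠ 1) (h : Orb u f) : Orb f u := by
  have a : 1 - u ≠ 0 := sub_ne_zero.mpr (Ne.symm h1)
  have b : u - 1 ≠ 0 := sub_ne_zero.mpr h1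
  unfold Orb at h ⊢
  rcases h with h | h | h | h | h | h
  · left; rw [h]
  · right; left; rw [h]; ring
  · right; right; left; rw [h, one_div_one_div]
  · right; right; right; right; left; rw [h]; field_simp; ring
  · right; right; right; left; rw [h]; field_simp; ring
  · right; right; right; right; right
    rw [h]
    have : u / (u - 1) - 1 = 1 / (u - 1) := by field_simp; ring
    rw [this]; field_simp

end

/-- the check of the translate of a class -/
def nxC (T : List Mo) (cls : List (Mo × Mo)) (nxt : List (ℕ × ℕ)) (c : ℕ) : Bool :=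
  decide ((nxt.getD c default).1 < cls.length) &&
  (eqM (cls.getD (nxt.getD c default).1 default).1
    (orb6 (subst T (cls.getD c default).1) (subst T (cls.getD c default).2)
      (nxt.getD c default).2) &&
  eqM (cls.getD (nxt.getD c default).1 default).2
    (orb6 (subst T (cls.getD c default).1) (subst T (cls.getD c default).2)
      (cm6 (nxt.getD c default).2)))

/-- the check of the origin of a class -/
def rkC (B : List (Mo × Mo × Mo)) (cls : List (Mo × Mo)) (nxt : List (ℕ × ℕ))
    (rk : List (ℕ × ℕ × ℕ)) (c : ℕ) : Bool :=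
  bif Nat.beq (rk.getD c default).1 0 then
    decide ((rk.getD c default).2.1 < B.length) &&
    (eqM (cls.getD c default).1 (orb6
      ((B.getD (rk.getD c default).2.1 default).1.div (B.getD (rk.getD c default).2.1 default).2.2)
      ((B.getD (rk.getD c default).2.1 default).2.1.div (B.getD (rk.getD c default).2.1 default).2.2)
      (rk.getD c default).2.2) &&
    eqM (cls.getD c default).2 (orb6
      ((B.getD (rk.getD c default).2.1 default).1.div (B.getD (rk.getD c default).2.1 default).2.2)
      ((B.getD (rk.getD c default).2.1 default).2.1.div (B.getD (rk.getD c default).2.1 default).2.2)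
      (cm6 (rk.getD c default).2.2)))
  else decide ((rk.getD c default).2.1 < cls.length) &&
    (Nat.beq (nxt.getD (rk.getD c default).2.1 default).1 c &&
    decide ((rk.getD (rk.getD c default).2.1 default).1 < (rk.getD c default).1))

section

variable {F : Type*} [Field F] {α : Type*} {G : α → Prop} {g : α → List F} {nx : α → α}
  {T : List Mo} {cls : List (Mo × Mo)} {nxt : List (ℕ × ℕ)} {rk : List (ℕ × ℕ × ℕ)}
  {B : List (Mo × Mo × Mo)}

/-- **the classes are solutions** -/
theorem sols_of (hG : ∀ a, G a → G (nx a)) (hne : ∀ a, G a → ∀ x ∈ g a, x ≠ 0)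
    (hg : ∀ a, G a → g (nx a) = T.map (KC72.ev (g a)))
    (hn : ∀ c < cls.length, nxC T cls nxt c = true)
    (hr : ∀ c < cls.length, rkC B cls nxt rk c = true)
    (hB : ∀ a, G a → ∀ r < B.length, KC72.ev (g a) (B.getD r default).1 +
      KC72.ev (g a) (B.getD r default).2.1 = KC72.ev (g a) (B.getD r default).2.2) :
    ∀ a, G a → Sols (g a) cls := by
  have key : ∀ n : ℕ, ∀ c < cls.length, (rk.getD c default).1 ≤ n → ∀ a, G a →
      KC72.ev (g a) (cls.getD c default).1 + KC72.ev (g a) (cls.getD c default).2 = 1 := by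
    intro n
    induction n with
    | zero =>
      intro c hc hrk a ha
      have h1 := hr c hc
      have h0 : (rk.getD c default).1 = 0 := by omega
      unfold rkC at h1
      rw [h0, show Nat.beq 0 0 = true from rfl, cond_true, Bool.and_eq_true, Bool.and_eq_true,
        decide_eq_true_eq] at h1
      have hx := hne a ha
      rw [ev_eqM hx h1.2.1, ev_eqM hx h1.2.2]
      refine orb6_add hx ?_ _
      rw [ev_div hx, ev_div hx, ← add_div, hB a ha _ h1.1]
      exact div_self (ev_ne hx _)
    | succ n ih =>
      intro c hc hrk a ha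
      by_cases h0 : (rk.getD c default).1 = 0
      · exact ih c hc (by omega) a ha
      have h1 := hr c hc
      unfold rkC at h1
      have hb : Nat.beq (rk.getD c default).1 0 = false := by
        cases h : Nat.beq (rk.getD c default).1 0
        · rfl
        · exact absurd (Nat.eq_of_beq_eq_true h) h0
      rw [hb, cond_false, Bool.and_eq_true, Bool.and_eq_true, decide_eq_true_eq,
        decide_eq_true_eq] at h1
      obtain ⟨q1, q2, q3⟩ := h1
      have q2' := Nat.eq_of_beq_eq_true q2
      have h2 := hn _ q1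
      unfold nxC at h2
      rw [Bool.and_eq_true, Bool.and_eq_true, q2'] at h2
      have hx := hne a ha
      rw [ev_eqM hx h2.2.1, ev_eqM hx h2.2.2]
      refine orb6_add hx ?_ _
      rw [ev_subst hx, ev_subst hx, ← hg a ha]
      exact ih _ q1 (by omega) (nx a) (hG a ha)
  intro a ha p hp
  obtain ⟨c, hc, hcp⟩ := List.getElem_of_mem hp
  have h3 : p = cls.getD c default := by rw [List.getD_eq_getElem _ _ hc, hcp]
  rw [h3]
  exact key _ c hc (le_refl _) a ha

lemma ne_of_sols {a : α} (hx : ∀ x ∈ g a, x ≠ 0) (H : Sols (g a) cls) {p : Mo × Mo} (hp : p ∈ cls) :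
    KC72.ev (g a) p.1 ≠ 0 ∧ KC72.ev (g a) p.1 ≠ 1 := by
  refine ⟨ev_ne hx _, fun h2 => ?_⟩
  have h3 := H p hp
  rw [h2] at h3
  exact ev_ne hx p.2 (by linear_combination h3)

/-- **the classes of the translates** -/
theorem orb_shift (hG : ∀ a, G a → G (nx a)) (hne : ∀ a, G a → ∀ x ∈ g a, x ≠ 0)
    (hg : ∀ a, G a → g (nx a) = T.map (KC72.ev (g a)))
    (hn : ∀ c < cls.length, nxC T cls nxt c = true)
    (H : ∀ a, G a → Sols (g a) cls) (j : ℕ) : ∀ a, G a → ∀ p ∈ cls,
      ∃ p' ∈ cls, Orb (KC72.ev (g a) p'.1) (KC72.ev (g (nx^[j] a)) p.1) := by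
  induction j with
  | zero => intro a ha p hp; exact ⟨p, hp, Or.inl rfl⟩
  | succ j ih =>
    intro a ha p hp
    obtain ⟨p', hp', h1⟩ := ih (nx a) (hG a ha) p hp
    obtain ⟨c, hc, hcp⟩ := List.getElem_of_mem hp'
    have h3 : p' = cls.getD c default := by rw [List.getD_eq_getElem _ _ hc, hcp]
    have h2 := hn c hc
    unfold nxC at h2
    rw [Bool.and_eq_true, Bool.and_eq_true, decide_eq_true_eq] at h2
    obtain ⟨q1, q2, q3⟩ := h2
    have hx := hne a ha
    have hm : cls.getD (nxt.getD c default).1 default ∈ cls := by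
      rw [List.getD_eq_getElem _ _ q1]
      exact List.getElem_mem q1
    refine ⟨_, hm, ?_⟩
    obtain ⟨n0, n1⟩ := ne_of_sols hx (H a ha) hm
    have hS : KC72.ev (g a) (subst T (cls.getD c default).1) +
        KC72.ev (g a) (subst T (cls.getD c default).2) = 1 := by
      rw [ev_subst hx, ev_subst hx, ← hg a ha, ← h3]
      exact H (nx a) (hG a ha) p' hp'
    have h4 := orb6_orb hx hS (nxt.getD c default).2
    rw [← ev_eqM hx q2] at h4
    have m0 : KC72.ev (g a) (subst T (cls.getD c default).1) ≠ 0 := ev_ne hx _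
    have m1 : KC72.ev (g a) (subst T (cls.getD c default).1) ≠ 1 := by
      intro h5
      rw [h5] at hS
      exact ev_ne hx (subst T (cls.getD c default).2) (by linear_combination hS)
    have h5 := Orb.symm' m0 m1 h4
    rw [Function.iterate_succ_apply]
    refine Orb.trans' n0 n1 h5 ?_
    rw [ev_subst hx, ← hg a ha, ← h3]
    exact h1

end

lemma all_of_range {f : ℕ → Bool} {n : ℕ} {B : ℕ} (hB : 0 < B)
    (h : ∀ i < n, (List.range B).all (fun c => f (B * i + c)) = true) :
    ∀ c < B * n, f c = true := by
  intro c hc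
  have h1 := h (c / B) (Nat.div_lt_of_lt_mul hc)
  rw [List.all_eq_true] at h1
  have h2 := h1 (c % B) (List.mem_range.mpr (Nat.mod_lt _ hB))
  rwa [Nat.div_add_mod] at h2

end Pool.Agent.KX
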