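import Pool.Agent.Lib_helper72.KX.A

/-!
# A point of order ten: divisors of the units
-/

set_option autoImplicit false
set_option linter.unusedSectionVars false
set_option linter.unusedSimpArgs false
set_option maxRecDepth 4000

namespace Pool.Agent.KX

lemma sum10 {M : Type*} [AddCommMonoid M] (f : Fin 10 → M) : ∑ i, f i = f 0 + f 1 + f 2 + f 3 +
    f 4 + f 5 + f 6 + f 7 + f 8 + f 9 := by
  rw [Fin.sum_univ_castSucc, Fin.sum_univ_castSucc, Fin.sum_univ_eight]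
  rfl

lemma sum9 {M : Type*} [AddCommMonoid M] (f : Fin 9 → M) : ∑ i, f i = f 0 + f 1 + f 2 + f 3 +
    f 4 + f 5 + f 6 + f 7 + f 8 := by
  rw [Fin.sum_univ_castSucc, Fin.sum_univ_eight]
  rfl

/-- the orders of the units `x, x - x2, x - x3, x - x4, x - x5, y, y - s2 x, y - s3 x, y - s4 x` at
`0, P, .., 9P` -/
def oU : Fin 9 → Fin 10 → ℤ :=
  ![![-2, 1, 0, 0, 0, 0, 0, 0, 0, 1], ![-2, 0, 1, 0, 0, 0, 0, 0, 1, 0],
    ![-2, 0, 0, 1, 0, 0, 0, 1, 0, 0], ![-2, 0, 0, 0, 1, 0, 1, 0, 0, 0],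
    ![-2, 0, 0, 0, 0, 2, 0, 0, 0, 0], ![-3, 2, 0, 0, 0, 0, 0, 0, 1, 0],
    ![-3, 1, 1, 0, 0, 0, 0, 1, 0, 0], ![-3, 1, 0, 1, 0, 0, 1, 0, 0, 0],
    ![-3, 1, 0, 0, 1, 1, 0, 0, 0, 0]]

/-- the order at `iP` of a monomial -/
def Dn (n : Fin 9 → ℤ) (i : Fin 10) : ℤ := ∑ j, n j * oU j i

/-- the exponents of `X i = x(z + iP)` in the basis -/
def ex : Fin 10 → Fin 9 → ℤ :=
  ![![1, 0, 0, 0, 0, 0, 0, 0, 0], ![-2, 0, 0, 0, 0, 1, 0, 0, 0], ![1, -1, 0, 0, 0, -1, 1, 0, 0],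
    ![0, 1, -1, 0, 0, 0, -1, 1, 0], ![0, 0, 1, -1, 0, 0, 0, -1, 1], ![0, 0, 0, 1, -1, 0, 0, 0, 0],
    ![0, 0, 0, -1, 1, 0, 0, 1, -1], ![0, 0, -1, 1, 0, 0, 1, -1, 0], ![0, -1, 1, 0, 0, 1, -1, 0, 0],
    ![0, 1, 0, 0, 0, -1, 0, 0, 0]]

/-- the order at the point `-sP` of `∏ X i ^ e i` -/
def OO (e : Fin 10 → ℤ) (s : Fin 10) : ℤ := e (s + 1) + e (s - 1) - 2 * e s

/-- the exponents in the basis -/
def NN (e : Fin 10 → ℤ) (j : Fin 9) : ℤ := ∑ i, e i * ex i j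

lemma Dn_NN (e : Fin 10 → ℤ) (m : Fin 10) : Dn (NN e) m = OO e (-m) := by
  have key : ∀ i m : Fin 10, ∑ j, ex i j * oU j m = (if i = -m + 1 then 1 else 0) +
      (if i = -m - 1 then 1 else 0) - 2 * (if i = -m then 1 else 0) := by decide +kernel
  unfold Dn NN OO
  have h1 : ∑ j, (∑ i, e i * ex i j) * oU j m = ∑ i, e i * ∑ j, ex i j * oU j m := by
    rw [show (∑ j, (∑ i, e i * ex i j) * oU j m) = ∑ j, ∑ i, e i * (ex i j * oU j m) from
      Finset.sum_congr rfl fun j _ => by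
        rw [Finset.sum_mul]; exact Finset.sum_congr rfl fun i _ => by ring, Finset.sum_comm]
    exact Finset.sum_congr rfl fun i _ => (Finset.mul_sum _ _ _).symm
  rw [h1]
  simp only [key, mul_sub, mul_add, Finset.sum_sub_distrib, Finset.sum_add_distrib]
  simp only [mul_ite, mul_one, mul_zero, Finset.sum_ite_eq', Finset.mem_univ, if_true]
  ring

lemma Dn_inj {n n' : Fin 9 → ℤ} (h : ∀ i, Dn n i = Dn n' i) : n = n' := by
  have h1 := h 1
  have h2 := h 2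
  have h3 := h 3
  have h4 := h 4
  have h5 := h 5
  have h6 := h 6
  have h7 := h 7
  have h8 := h 8
  have h9 := h 9
  simp only [Dn, sum9, oU, Matrix.cons_val, Matrix.cons_val_zero,
    Matrix.cons_val_one] at h1 h2 h3 h4 h5 h6 h7 h8 h9
  funext j
  fin_cases j <;> simp only [Fin.zero_eta, Fin.mk_one, Fin.reduceFinMk] <;> omega

/-- a section of `NN` -/
def se : Fin 9 → Fin 10 → ℤ :=
  ![![0, -1, -1, -1, -1, -1, -1, -1, -1, -1], ![0, -1, -2, -2, -2, -2, -2, -2, -2, -1],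
    ![0, -1, -2, -3, -3, -3, -3, -3, -2, -1], ![0, -1, -2, -3, -4, -4, -4, -3, -2, -1],
    ![0, -1, -2, -3, -4, -5, -4, -3, -2, -1], ![0, -1, -2, -2, -2, -2, -2, -2, -2, -2],
    ![0, -1, -2, -3, -3, -3, -3, -3, -3, -2], ![0, -1, -2, -3, -4, -4, -4, -4, -3, -2],
    ![0, -1, -2, -3, -4, -5, -5, -4, -3, -2]]

/-- exponents of the `X i` -/
def SE (n : Fin 9 → ℤ) (i : Fin 10) : ℤ := ∑ j, n j * se j i

lemma NN_SE (n : Fin 9 → ℤ) : NN (SE n) = n := by
  have key : ∀ j l : Fin 9, ∑ i, se j i * ex i l = if j = l then 1 else 0 := by decide +kernel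
  funext l
  unfold NN SE
  have h1 : ∑ i, (∑ j, n j * se j i) * ex i l = ∑ j, n j * ∑ i, se j i * ex i l := by
    rw [show (∑ i, (∑ j, n j * se j i) * ex i l) = ∑ i, ∑ j, n j * (se j i * ex i l) from
      Finset.sum_congr rfl fun i _ => by
        rw [Finset.sum_mul]; exact Finset.sum_congr rfl fun j _ => by ring, Finset.sum_comm]
    exact Finset.sum_congr rfl fun j _ => (Finset.mul_sum _ _ _).symm
  rw [h1]
  simp only [key, mul_ite, mul_one, mul_zero, Finset.sum_ite_eq', Finset.mem_univ, if_true]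

lemma OO_shift (e : Fin 10 → ℤ) (h s : Fin 10) : OO (fun i => e (i + h)) s = OO e (s + h) := by
  show e (s + 1 + h) + e (s - 1 + h) - 2 * e (s + h) = e (s + h + 1) + e (s + h - 1) - 2 * e (s + h)
  rw [show s + 1 + h = s + h + 1 by abel, show s - 1 + h = s + h - 1 by abel]

lemma sum_OO (e : Fin 10 → ℤ) : ∑ s, OO e s = 0 := by
  unfold OO
  rw [Finset.sum_sub_distrib, Finset.sum_add_distrib, ← Finset.mul_sum]
  have h1 : ∑ s, e (s + 1) = ∑ s, e s := Equiv.sum_comp (Equiv.addRight (1 : Fin 10)) e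
  have h2 : ∑ s, e (s - 1) = ∑ s, e s := Equiv.sum_comp (Equiv.subRight (1 : Fin 10)) e
  rw [h1, h2]; ring

lemma wt_OO (e : Fin 10 → ℤ) : ∑ s : Fin 10, (s.val : ℤ) * OO e s = 10 * (e 0 - e 9) := by
  rw [sum10]
  unfold OO
  have a0 : (0 : Fin 10) + 1 = 1 ∧ (0 : Fin 10) - 1 = 9 := by decide
  have a1 : (1 : Fin 10) + 1 = 2 ∧ (1 : Fin 10) - 1 = 0 := by decide
  have a2 : (2 : Fin 10) + 1 = 3 ∧ (2 : Fin 10) - 1 = 1 := by decide
  have a3 : (3 : Fin 10) + 1 = 4 ∧ (3 : Fin 10) - 1 = 2 := by decide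
  have a4 : (4 : Fin 10) + 1 = 5 ∧ (4 : Fin 10) - 1 = 3 := by decide
  have a5 : (5 : Fin 10) + 1 = 6 ∧ (5 : Fin 10) - 1 = 4 := by decide
  have a6 : (6 : Fin 10) + 1 = 7 ∧ (6 : Fin 10) - 1 = 5 := by decide
  have a7 : (7 : Fin 10) + 1 = 8 ∧ (7 : Fin 10) - 1 = 6 := by decide
  have a8 : (8 : Fin 10) + 1 = 9 ∧ (8 : Fin 10) - 1 = 7 := by decide
  have a9 : (9 : Fin 10) + 1 = 0 ∧ (9 : Fin 10) - 1 = 8 := by decide
  rw [a0.1, a0.2, a1.1, a1.2, a2.1, a2.2, a3.1, a3.2, a4.1, a4.2, a5.1, a5.2, a6.1, a6.2, a7.1,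
    a7.2, a8.1, a8.2, a9.1, a9.2]
  have v0 : ((0 : Fin 10).val : ℤ) = 0 := rfl
  have v1 : ((1 : Fin 10).val : ℤ) = 1 := rfl
  have v2 : ((2 : Fin 10).val : ℤ) = 2 := rfl
  have v3 : ((3 : Fin 10).val : ℤ) = 3 := rfl
  have v4 : ((4 : Fin 10).val : ℤ) = 4 := rfl
  have v5 : ((5 : Fin 10).val : ℤ) = 5 := rfl
  have v6 : ((6 : Fin 10).val : ℤ) = 6 := rfl
  have v7 : ((7 : Fin 10).val : ℤ) = 7 := rfl
  have v8 : ((8 : Fin 10).val : ℤ) = 8 := rfl
  have v9 : ((9 : Fin 10).val : ℤ) = 9 := rfl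
  rw [v0, v1, v2, v3, v4, v5, v6, v7, v8, v9]
  ring

/-- second differences -/
lemma sum_OO_mul (κ : Fin 10 → ℤ) (e : Fin 10 → ℤ) : ∑ c, κ c * OO e c =
    ∑ i, e i * (κ (i - 1) + κ (i + 1) - 2 * κ i) := by
  have h2 : ∑ c, κ c * OO e c = ∑ c, κ c * e (c + 1) + ∑ c, κ c * e (c - 1) -
      ∑ c, κ c * (2 * e c) := by
    unfold OO
    rw [← Finset.sum_add_distrib, ← Finset.sum_sub_distrib]
    exact Finset.sum_congr rfl fun c _ => by ring
  have h3 : ∑ c, κ c * e (c + 1) = ∑ i, e i * κ (i - 1) := by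
    rw [← Equiv.sum_comp (Equiv.addRight (1 : Fin 10)) (fun i => e i * κ (i - 1))]
    refine Finset.sum_congr rfl fun c _ => ?_
    show _ = e (c + 1) * κ (c + 1 - 1)
    rw [add_sub_cancel_right, mul_comm]
  have h4 : ∑ c, κ c * e (c - 1) = ∑ i, e i * κ (i + 1) := by
    rw [← Equiv.sum_comp (Equiv.subRight (1 : Fin 10)) (fun i => e i * κ (i + 1))]
    refine Finset.sum_congr rfl fun c _ => ?_
    show _ = e (c - 1) * κ (c - 1 + 1)
    rw [sub_add_cancel, mul_comm]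
  rw [h2, h3, h4, ← Finset.sum_add_distrib, ← Finset.sum_sub_distrib]
  exact Finset.sum_congr rfl fun i _ => by ring

lemma ex_pos {D : Fin 10 → ℤ} (hs : ∑ s, D s = 0) (h : ∃ s, D s ≠ 0) : ∃ s, 1 ≤ D s := by
  by_contra hc
  push Not at hc
  obtain ⟨s, hs'⟩ := h
  have h2 : ∑ s, D s < 0 := by
    refine Finset.sum_neg' (fun i _ => by have := hc i; omega) ⟨s, Finset.mem_univ _, ?_⟩
    have := hc s
    omega
  omega

lemma ex_neg {D : Fin 10 → ℤ} (hs : ∑ s, D s = 0) (h : ∃ s, D s ≠ 0) : ∃ s, D s ≤ -1 := by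
  obtain ⟨s, h2⟩ := ex_pos (D := fun s => - D s) (by rw [Finset.sum_neg_distrib, hs, neg_zero])
    (by obtain ⟨s, hs⟩ := h; exact ⟨s, neg_ne_zero.mpr hs⟩)
  exact ⟨s, by omega⟩

/-- one of three disjoint sets of residues has at most three elements -/
lemma small3 (P Q R : Fin 10 → Prop) (hP : ∃ s, P s) (hQ : ∃ s, Q s) (hR : ∃ s, R s)
    (h1 : ∀ s, ¬ (P s ∧ Q s)) (h2 : ∀ s, ¬ (P s ∧ R s)) (h3 : ∀ s, ¬ (Q s ∧ R s)) :
    (∃ a b c, P a ∧ P b ∧ P c ∧ ∀ s, P s → s = a ∨ s = b ∨ s = c) ∨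
    (∃ a b c, Q a ∧ Q b ∧ Q c ∧ ∀ s, Q s → s = a ∨ s = b ∨ s = c) ∨
    ∃ a b c, R a ∧ R b ∧ R c ∧ ∀ s, R s → s = a ∨ s = b ∨ s = c := by
  classical
  have two : ∀ P : Fin 10 → Prop, (∃ s, P s) → (Finset.univ.filter P).card ≤ 3 →
      ∃ a b c, P a ∧ P b ∧ P c ∧ ∀ s, P s → s = a ∨ s = b ∨ s = c := by
    intro P hP hc
    obtain ⟨a, ha⟩ := hP
    by_cases hb : ∃ b, P b ∧ b ≠ a
    · obtain ⟨b, hb, hba⟩ := hb
      by_cases hd : ∃ c, P c ∧ c ≠ a ∧ c ≠ b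
      · obtain ⟨c, hc', hca, hcb⟩ := hd
        refine ⟨a, b, c, ha, hb, hc', fun s hs => ?_⟩
        by_contra hne
        push Not at hne
        have h4 : ({a, b, c, s} : Finset (Fin 10)) ⊆ Finset.univ.filter P := by
          intro z hz
          simp only [Finset.mem_insert, Finset.mem_singleton] at hz
          rcases hz with rfl | rfl | rfl | rfl <;> simp [*]
        have h5 := Finset.card_le_card h4
        have h6 : ({a, b, c, s} : Finset (Fin 10)).card = 4 := by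
          rw [Finset.card_insert_of_notMem, Finset.card_insert_of_notMem,
            Finset.card_insert_of_notMem, Finset.card_singleton]
          · rw [Finset.mem_singleton]; exact Ne.symm hne.2.2
          · simp only [Finset.mem_insert, Finset.mem_singleton, not_or]
            exact ⟨Ne.symm hcb, Ne.symm hne.2.1⟩
          · simp only [Finset.mem_insert, Finset.mem_singleton, not_or]
            exact ⟨Ne.symm hba, Ne.symm hca, Ne.symm hne.1⟩
        omega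
      · push Not at hd
        refine ⟨a, b, b, ha, hb, hb, fun s hs => ?_⟩
        by_cases hsa : s = a
        · exact Or.inl hsa
        · exact Or.inr (Or.inl (hd s hs hsa))
    · push Not at hb
      exact ⟨a, a, a, ha, ha, ha, fun s hs => Or.inl (hb s hs)⟩
  by_contra hcon
  push Not at hcon
  obtain ⟨c1, c2, c3⟩ := hcon
  have d1 : 4 ≤ (Finset.univ.filter P).card := by
    by_contra hc
    obtain ⟨a, b, c, ha, hb, hc', h⟩ := two P hP (by omega)
    obtain ⟨s, hs, q1, q2, q3⟩ := c1 a b c ha hb hc'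
    rcases h s hs with h | h | h
    · exact q1 h
    · exact q2 h
    · exact q3 h
  have d2 : 4 ≤ (Finset.univ.filter Q).card := by
    by_contra hc
    obtain ⟨a, b, c, ha, hb, hc', h⟩ := two Q hQ (by omega)
    obtain ⟨s, hs, q1, q2, q3⟩ := c2 a b c ha hb hc'
    rcases h s hs with h | h | h
    · exact q1 h
    · exact q2 h
    · exact q3 h
  have d3 : 4 ≤ (Finset.univ.filter R).card := by
    by_contra hc
    obtain ⟨a, b, c, ha, hb, hc', h⟩ := two R hR (by omega)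
    obtain ⟨s, hs, q1, q2, q3⟩ := c3 a b c ha hb hc'
    rcases h s hs with h | h | h
    · exact q1 h
    · exact q2 h
    · exact q3 h
  have e1 : Disjoint (Finset.univ.filter P) (Finset.univ.filter Q) := by
    rw [Finset.disjoint_filter]; exact fun s _ hs hs' => h1 s ⟨hs, hs'⟩
  have e2 : Disjoint (Finset.univ.filter P ∪ Finset.univ.filter Q) (Finset.univ.filter R) := by
    rw [Finset.disjoint_union_left, Finset.disjoint_filter, Finset.disjoint_filter]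
    exact ⟨fun s _ hs hs' => h2 s ⟨hs, hs'⟩, fun s _ hs hs' => h3 s ⟨hs, hs'⟩⟩
  have e3 := Finset.card_le_univ ((Finset.univ.filter P ∪ Finset.univ.filter Q) ∪
    Finset.univ.filter R)
  rw [Finset.card_union_of_disjoint e2, Finset.card_union_of_disjoint e1] at e3
  simp only [Fintype.card_fin] at e3
  omega

end Pool.Agent.KX
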