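import Pool.Agent.Lib_helper72.KX.Cm
import Pool.Agent.Lib_helper72.K7S.E
import Pool.Agent.Lib_helper72.KC.C

/-!
# A point of order ten: enumeration of divisors
-/

set_option autoImplicit false
set_option linter.unusedSectionVars false
set_option linter.unusedSimpArgs false
set_option linter.unusedVariables false

namespace Pool.Agent.KX

open KC72
open Pool.Agent.K7 (dot pos neg rot mkD code)

/-- the list of values -/
def tl (D : Fin 10 → ℤ) : List ℤ := [D 0, D 1, D 2, D 3, D 4, D 5, D 6, D 7, D 8, D 9]

lemma dot_tl (f D : Fin 10 → ℤ) : dot (tl f) (tl D) = ∑ c, f c * D c := by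
  rw [sum10]
  show f 0 * D 0 + (f 1 * D 1 + (f 2 * D 2 + (f 3 * D 3 + (f 4 * D 4 + (f 5 * D 5 +
    (f 6 * D 6 + (f 7 * D 7 + (f 8 * D 8 + (f 9 * D 9 + 0))))))))) = _
  ring

lemma tl_inj {D D' : Fin 10 → ℤ} (h : tl D = tl D') (s : Fin 10) : D s = D' s := by
  unfold tl at h
  simp only [List.cons.injEq, and_true] at h
  obtain ⟨h0, h1, h2, h3, h4, h5, h6, h7, h8, h9⟩ := h
  fin_cases s <;> assumption

lemma rot_tl (D : Fin 10 → ℤ) : rot (tl D) = tl (fun i => D (i + 1)) := rfl

lemma rot_iter (j : ℕ) : ∀ D : Fin 10 → ℤ,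
    rot^[j] (tl D) = tl (fun i => D (i + j • (1 : Fin 10))) := by
  induction j with
  | zero => intro D; simp
  | succ j ih =>
    intro D
    rw [Function.iterate_succ_apply, rot_tl, ih]
    congr 1
    funext i
    congr 1
    rw [succ_nsmul, add_assoc]

lemma mkD_tl (f D D' : Fin 10 → ℤ) (h : ∀ s, (if D' s < 0 then D' s else f s) = D s) :
    mkD (tl f) (tl D') = tl D := by
  show [if D' 0 < 0 then D' 0 else f 0, if D' 1 < 0 then D' 1 else f 1,
    if D' 2 < 0 then D' 2 else f 2, if D' 3 < 0 then D' 3 else f 3,
    if D' 4 < 0 then D' 4 else f 4, if D' 5 < 0 then D' 5 else f 5,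
    if D' 6 < 0 then D' 6 else f 6, if D' 7 < 0 then D' 7 else f 7,
    if D' 8 < 0 then D' 8 else f 8, if D' 9 < 0 then D' 9 else f 9] = _
  simp only [h]
  rfl

/-! ### vectors of bounded positive and negative part -/

/-- all vectors with bounded positive and negative part -/
def enF (chk : List ℤ → Bool) : ℕ → ℕ → ℕ → List ℤ → Bool
  | 0, _, _, l => chk l
  | k + 1, p, q, l =>
    (List.range (p + 1)).all (fun v => enF chk k (p - v) q (Int.ofNat v :: l)) &&
    (List.range q).all (fun v => enF chk k p (q - (v + 1)) (Int.negSucc v :: l))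

theorem enF_spec (chk : List ℤ → Bool) (k : ℕ) :
    ∀ (p q : ℕ) (l : List ℤ), enF chk k p q l = true → ∀ v : List ℤ, v.length = k →
      pos v ≤ p → neg v ≤ q → chk (v.reverse ++ l) = true := by
  induction k with
  | zero =>
    intro p q l h v hv hp hq
    rw [List.length_eq_zero_iff.mp hv]
    exact h
  | succ k ih =>
    intro p q l h v hv hp hq
    cases v with
    | nil => simp at hv
    | cons x v =>
      rw [List.length_cons, Nat.add_right_cancel_iff] at hv
      rw [List.reverse_cons, List.append_assoc, List.singleton_append]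
      unfold enF at h
      rw [Bool.and_eq_true] at h
      obtain ⟨h1, h2⟩ := h
      rw [List.all_eq_true] at h1 h2
      rcases x with m | m
      · have hp' : m + pos v ≤ p := by
          refine le_trans (le_of_eq ?_) hp
          simp [pos]
        have hq' : neg v ≤ q := by
          refine le_trans (le_of_eq ?_) hq
          simp [neg]
        exact ih (p - m) q _ (h1 m (List.mem_range.mpr (by omega))) v hv (by omega) hq'
      · have hp' : pos v ≤ p := by
          refine le_trans (le_of_eq ?_) hp
          simp [pos]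
        have hq' : m + 1 + neg v ≤ q := by
          refine le_trans (le_of_eq ?_) hq
          have : (-(Int.negSucc m)).toNat = m + 1 := by rw [Int.neg_negSucc]; rfl
          simp only [neg, List.map_cons, List.sum_cons, this]
        exact ih p (q - (m + 1)) _ (h2 m (List.mem_range.mpr (by omega))) v hv hp' (by omega)

/-! ### dependent coordinates -/

/-- the solution of a system of linear equations -/
structure Sys where
  /-- the free coordinates -/
  fr : List ℕ
  /-- the denominator -/
  den : ℤ
  /-- the coordinates in terms of the free ones -/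
  B : List (List ℤ)
  /-- the multipliers -/
  mu : List (List ℤ)

/-- the check of the multipliers -/
def Sys.ok (S : Sys) (R : List (List ℤ)) : Bool :=
  decide (S.den ≠ 0) && (decide (S.B.length = 10) && (List.range 10).all (fun i =>
    isZ (axpy (-1) (comb (S.mu.getD i []) R) (axpy S.den (sgl i 1)
      (comb ((S.B.getD i []).map (fun x => -x)) (S.fr.map (fun f => sgl f 1)))))))

lemma pl_dot (r l : List ℤ) : pl (l.map (fun x : ℤ => (x : ℚ))) r = ((dot r l : ℤ) : ℚ) := by
  induction r generalizing l with
  | nil => simp [dot]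
  | cons a r ih =>
    cases l with
    | nil => simp [dot]
    | cons b l =>
      rw [List.map_cons, pl_cons, ih]
      show _ = ((a * b + dot r l : ℤ) : ℚ)
      push_cast
      rw [smul_eq_mul]

lemma Sys.spec {S : Sys} {R : List (List ℤ)} (h : S.ok R = true) {l : List ℤ}
    (hR : ∀ r ∈ R, dot r l = 0) {i : ℕ} (hi : i < 10) :
    S.den * l.getD i 0 = dot (S.B.getD i []) (S.fr.map (fun f => l.getD f 0)) := by
  unfold Sys.ok at h
  rw [Bool.and_eq_true, Bool.and_eq_true] at h
  have h1 := (List.all_eq_true.mp h.2.2) i (List.mem_range.mpr hi)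
  set E := l.map (fun x : ℤ => (x : ℚ)) with hE
  have h2 := pl_isZ E h1
  have g : ∀ j, E.getD j 0 = ((l.getD j 0 : ℤ) : ℚ) := by
    intro j
    rw [hE, List.getD_eq_getElem?_getD, List.getElem?_map, List.getD_eq_getElem?_getD]
    cases l[j]? <;> simp
  have z : pl E (comb (S.mu.getD i []) R) = 0 := by
    rw [pl_comb]
    refine pl_zero _ ?_ _
    intro e he
    rw [List.mem_map] at he
    obtain ⟨r, hr, rfl⟩ := he
    rw [pl_dot, hR r hr, Int.cast_zero]
  rw [pl_axpy, z, smul_zero, zero_add, pl_axpy, pl_sgl, pl_comb, g] at h2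
  have e2 : (S.fr.map (fun f => sgl f 1)).map (pl E) =
      (S.fr.map (fun f => l.getD f 0)).map (fun x : ℤ => (x : ℚ)) := by
    rw [List.map_map, List.map_map]
    refine List.map_congr_left fun f _ => ?_
    simp only [Function.comp_apply]
    rw [pl_sgl, g]
    simp
  rw [e2, pl_dot] at h2
  have e3 : ∀ r m : List ℤ, dot (r.map (fun x => -x)) m = - dot r m := by
    intro r
    induction r with
    | nil => intro m; simp [dot]
    | cons a r ih =>
      intro m
      cases m with
      | nil => simp [dot]
      | cons b m =>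
        rw [List.map_cons]
        unfold dot
        rw [ih]; ring
  rw [e3] at h2
  have h3 : ((S.den * l.getD i 0 - dot (S.B.getD i []) (S.fr.map (fun f => l.getD f 0)) : ℤ) : ℚ)
      = 0 := by
    rw [← h2]
    push_cast
    rw [smul_eq_mul, smul_eq_mul]
    ring
  have h4 : S.den * l.getD i 0 - dot (S.B.getD i []) (S.fr.map (fun f => l.getD f 0)) = 0 := by
    exact_mod_cast h3
  omega

/-- all coordinates from the free ones -/
def Sys.full (S : Sys) (v : List ℤ) : List ℤ := (S.B.map (fun r => dot r v)).map (fun x => x / S.den)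

/-- integrality -/
def Sys.int (S : Sys) (v : List ℤ) : Bool := (S.B.map (fun r => dot r v)).all (fun x => x % S.den == 0)

lemma Sys.full_eq {S : Sys} {R : List (List ℤ)} (h : S.ok R = true) {l : List ℤ}
    (hl : l.length = 10) (hR : ∀ r ∈ R, dot r l = 0) :
    S.full (S.fr.map (fun f => l.getD f 0)) = l ∧
      S.int (S.fr.map (fun f => l.getD f 0)) = true := by
  have h0 := h
  unfold Sys.ok at h0
  rw [Bool.and_eq_true, Bool.and_eq_true, decide_eq_true_eq, decide_eq_true_eq] at h0
  obtain ⟨hd, hB, -⟩ := h0
  have key : ∀ i (hi : i < S.B.length), dot (S.B[i]) (S.fr.map (fun f => l.getD f 0)) =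
      S.den * l.getD i 0 := by
    intro i hi
    rw [S.spec h hR (by omega), List.getD_eq_getElem _ _ hi]
  constructor
  · unfold Sys.full
    apply List.ext_getElem
    · simp [hB, hl]
    · intro i h1 h2
      simp only [List.length_map] at h1
      rw [List.getElem_map, List.getElem_map, key i h1, List.getD_eq_getElem _ _ h2,
        Int.mul_ediv_cancel_left _ hd]
  · unfold Sys.int
    rw [List.all_eq_true]
    intro x hx
    rw [List.mem_map] at hx
    obtain ⟨r, hr, rfl⟩ := hx
    obtain ⟨i, hi, rfl⟩ := List.getElem_of_mem hr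
    rw [key i hi, beq_iff_eq, Int.mul_emod_right]

lemma pos_getD_le (l : List ℤ) (fr : List ℕ) (hfr : fr.Nodup) (hb : ∀ f ∈ fr, f < l.length) :
    pos (fr.map (fun f => l.getD f 0)) ≤ pos l ∧ neg (fr.map (fun f => l.getD f 0)) ≤ neg l := by
  have key : ∀ φ : ℤ → ℕ, ((fr.map (fun f => l.getD f 0)).map φ).sum ≤ (l.map φ).sum := by
    intro φ
    have h1 : ∀ l : List ℤ, (l.map φ).sum = ∑ i ∈ Finset.range l.length, φ (l.getD i 0) := by
      intro l
      induction l with
      | nil => simp
      | cons x l ih =>
        rw [List.map_cons, List.sum_cons, ih, List.length_cons, Finset.sum_range_succ']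
        simp [add_comm]
    rw [h1 l, List.map_map]
    have h2 : (fr.map (φ ∘ fun f => l.getD f 0)).sum = ∑ f ∈ fr.toFinset, φ (l.getD f 0) := by
      rw [← List.sum_toFinset _ hfr]
      rfl
    rw [h2]
    refine Finset.sum_le_sum_of_subset ?_
    intro f hf
    rw [List.mem_toFinset] at hf
    exact Finset.mem_range.mpr (hb f hf)
  exact ⟨key _, key _⟩

end Pool.Agent.KX
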