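import Pool.Agent.Lib_helper87.FAM.T10

/-!
# The special curves with a point of order ten: the normal forms
-/

set_option autoImplicit false
set_option linter.unusedSectionVars false

namespace Pool.Agent.FK4

open Pool.Agent.MK4 WeierstrassCurve.Affine
open Pool.Agent.TN (Wt)
open Pool.Agent.UEG (P0 Chg nx ny)

section

variable {k : Type*} [Field k] [DecidableEq k] {W : WeierstrassCurve.Affine k} {F : Type*}
  [Field F] [Algebra k F] {X Y : F} [CharZero k]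

/-- the normal form with the parameter `t₀` -/
def To10t (t₀ : k) (P : W.Point) (X Y : F) : Prop := ∃ (hb : UE10.bb t₀ ≠ 0) (x' y' : F),
  Generic (Wt (UE10.bb t₀) (UE10.cc t₀)) x' y' ∧
  addOrderOf (P0 (UE10.cc t₀) hb) = 10 ∧
  SameS (AddSubgroup.zmultiples P) X Y (AddSubgroup.zmultiples (P0 (UE10.cc t₀) hb)) x' y' ∧
  (IntermediateField.adjoin k {X, Y} = ⊤ → IntermediateField.adjoin k {x', y'} = ⊤)

/-- points of order ten, with the six pairs of special curves -/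
theorem tate10t (hg : Generic W X Y) (P : W.Point) (h : addOrderOf P = 10) :
    ∃ (t : k) (x y : F) (hb : UE10.bb t ≠ 0), t ≠ 0 ∧ t - 1 ≠ 0 ∧ 2 * t - 1 ≠ 0 ∧
      t ^ 2 - 3 * t + 1 ≠ 0 ∧
      Tate P X Y (UE10.bb t) (UE10.cc t) x y ∧
      Generic (Wt (UE10.bb t) (UE10.cc t)) x y ∧
      addOrderOf (P0 (UE10.cc t) hb) = 10 ∧
      SameS (AddSubgroup.zmultiples P) X Y (AddSubgroup.zmultiples (P0 (UE10.cc t) hb)) x y ∧
      (IntermediateField.adjoin k {X, Y} = ⊤ → IntermediateField.adjoin k {x, y} = ⊤) ∧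
      (t = 2 ∨ 3 * t = 1 → To10 P X Y) ∧ (t = -1 ∨ 3 * t = 2 → To10' P X Y) ∧
      (2 * t = -1 ∨ 4 * t = 3 → To10t (-1 / 2) P X Y) ∧
      (2 * t = 3 ∨ 4 * t = 1 → To10t (3 / 2) P X Y) ∧
      (t = 3 ∨ 5 * t = 2 → To10t 3 P X Y) ∧
      (2 * t = 5 ∨ 8 * t = 3 → To10t (5 / 2) P X Y) := by
  rcases P with _ | ⟨p₁, p₂, hP⟩
  · exfalso
    have : addOrderOf (0 : W.Point) = 10 := h
    rw [addOrderOf_zero] at this
    omega
  obtain ⟨b, c, u, s, hb, hC, hO, hH⟩ := UEG.tate_of_order hP (by norm_num : 4 ≤ 10) h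
  obtain ⟨t, ht0, ht1, ht2, ht3, ec', eb'⟩ := UEG.bc_of_ten hb hO
  subst ec' eb'
  obtain ⟨x, y, i1, i2, i3, i4⟩ := tateS_of hg hP hb hC
  have hP10 : (10 : ℕ) • Point.some p₁ p₂ hP = 0 := by rw [← h]; exact addOrderOf_nsmul_eq_zero _
  refine ⟨t, x, y, hb, ht0, ht1, ht2, ht3, i1, i2, hO, i3, i4, ?_, ?_, ?_, ?_, ?_, ?_⟩
  · rintro (rfl | h2)
    · exact ⟨x, y, i2, hO, i3, i4⟩
    · -- `t = 1 / 3`
      have h2' : t = 1 / 3 := by linear_combination h2 / 3
      subst h2'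
      obtain ⟨h3, e3⟩ := UEG.three_P0 (c := UE10.cc (1 / 3 : k)) hb
      have hC' : Chg (Wt (UE10.bb (1 / 3 : k)) (UE10.cc (1 / 3))) (Wt (UE10.bb 2) (UE10.cc 2))
          (-1 / 3) (UE10.cc (1 / 3)) 0 (UE10.bb (1 / 3) - UE10.cc (1 / 3)) := by
        constructor <;> (try simp only [Wt, UE10.bb, UE10.cc]) <;> norm_num
      obtain ⟨x', y', j1, j2, j3, j4, j5⟩ := tateS_mul hg hP hb hC bb10 hC' e3
      have hz := zm_eq hP10 (m := 3) (m' := 7) (by norm_num)
      rw [hz] at j4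
      exact ⟨x', y', j2, j3.trans ((order_eq hz).trans h), j4, j5⟩
  · rintro (rfl | h2)
    · exact ⟨x, y, i2, hO, i3, i4⟩
    · -- `t = 2 / 3`
      have h2' : t = 2 / 3 := by linear_combination h2 / 3
      subst h2'
      obtain ⟨h3, e3⟩ := UEG.three_P0 (c := UE10.cc (2 / 3 : k)) hb
      have hC' : Chg (Wt (UE10.bb (2 / 3 : k)) (UE10.cc (2 / 3))) (Wt (UE10.bb (-1)) (UE10.cc (-1)))
          (1 / 3) (UE10.cc (2 / 3)) (-3 / 5) (UE10.bb (2 / 3) - UE10.cc (2 / 3)) := by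
        constructor <;> (try simp only [Wt, UE10.bb, UE10.cc]) <;> norm_num
      obtain ⟨x', y', j1, j2, j3, j4, j5⟩ := tateS_mul hg hP hb hC bb10' hC' e3
      have hz := zm_eq hP10 (m := 3) (m' := 7) (by norm_num)
      rw [hz] at j4
      exact ⟨x', y', j2, j3.trans ((order_eq hz).trans h), j4, j5⟩
  · rintro (h2 | h2)
    · have h2' : t = -1 / 2 := by linear_combination h2 / 2
      subst h2'
      exact ⟨hb, x, y, i2, hO, i3, i4⟩
    · -- `t = 3 / 4`
      have h2' : t = 3 / 4 := by linear_combination h2 / 4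
      subst h2'
      obtain ⟨h3, e3⟩ := UEG.three_P0 (c := UE10.cc (3 / 4 : k)) hb
      have hb' : UE10.bb (-1 / 2 : k) ≠ 0 := by unfold UE10.bb UE10.cc; norm_num
      have hC' : Chg (Wt (UE10.bb (3 / 4 : k)) (UE10.cc (3 / 4)))
          (Wt (UE10.bb (-1 / 2)) (UE10.cc (-1 / 2)))
          (1 / 2) (UE10.cc (3 / 4)) (-5 / 11) (UE10.bb (3 / 4) - UE10.cc (3 / 4)) := by
        constructor <;> (try simp only [Wt, UE10.bb, UE10.cc]) <;> norm_num
      obtain ⟨x', y', j1, j2, j3, j4, j5⟩ := tateS_mul hg hP hb hC hb' hC' e3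
      have hz := zm_eq hP10 (m := 3) (m' := 7) (by norm_num)
      rw [hz] at j4
      exact ⟨hb', x', y', j2, j3.trans ((order_eq hz).trans h), j4, j5⟩
  · rintro (h2 | h2)
    · have h2' : t = 3 / 2 := by linear_combination h2 / 2
      subst h2'
      exact ⟨hb, x, y, i2, hO, i3, i4⟩
    · -- `t = 1 / 4`
      have h2' : t = 1 / 4 := by linear_combination h2 / 4
      subst h2'
      obtain ⟨h3, e3⟩ := UEG.three_P0 (c := UE10.cc (1 / 4 : k)) hb
      have hb' : UE10.bb (3 / 2 : k) ≠ 0 := by unfold UE10.bb UE10.cc; norm_num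
      have hC' : Chg (Wt (UE10.bb (1 / 4 : k)) (UE10.cc (1 / 4)))
          (Wt (UE10.bb (3 / 2)) (UE10.cc (3 / 2)))
          (-1 / 2) (UE10.cc (1 / 4)) (-3 / 5) (UE10.bb (1 / 4) - UE10.cc (1 / 4)) := by
        constructor <;> (try simp only [Wt, UE10.bb, UE10.cc]) <;> norm_num
      obtain ⟨x', y', j1, j2, j3, j4, j5⟩ := tateS_mul hg hP hb hC hb' hC' e3
      have hz := zm_eq hP10 (m := 3) (m' := 7) (by norm_num)
      rw [hz] at j4
      exact ⟨hb', x', y', j2, j3.trans ((order_eq hz).trans h), j4, j5⟩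
  · rintro (rfl | h2)
    · exact ⟨hb, x, y, i2, hO, i3, i4⟩
    · -- `t = 2 / 5`
      have h2' : t = 2 / 5 := by linear_combination h2 / 5
      subst h2'
      obtain ⟨h3, e3⟩ := UEG.three_P0 (c := UE10.cc (2 / 5 : k)) hb
      have hb' : UE10.bb (3 : k) ≠ 0 := by unfold UE10.bb UE10.cc; norm_num
      have hC' : Chg (Wt (UE10.bb (2 / 5 : k)) (UE10.cc (2 / 5)))
          (Wt (UE10.bb 3) (UE10.cc 3))
          (-1 / 5) (UE10.cc (2 / 5)) (-3) (UE10.bb (2 / 5) - UE10.cc (2 / 5)) := by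
        constructor <;> (try simp only [Wt, UE10.bb, UE10.cc]) <;> norm_num
      obtain ⟨x', y', j1, j2, j3, j4, j5⟩ := tateS_mul hg hP hb hC hb' hC' e3
      have hz := zm_eq hP10 (m := 3) (m' := 7) (by norm_num)
      rw [hz] at j4
      exact ⟨hb', x', y', j2, j3.trans ((order_eq hz).trans h), j4, j5⟩
  · rintro (h2 | h2)
    · have h2' : t = 5 / 2 := by linear_combination h2 / 2
      subst h2'
      exact ⟨hb, x, y, i2, hO, i3, i4⟩
    · -- `t = 3 / 8`
      have h2' : t = 3 / 8 := by linear_combination h2 / 8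
      subst h2'
      obtain ⟨h3, e3⟩ := UEG.three_P0 (c := UE10.cc (3 / 8 : k)) hb
      have hb' : UE10.bb (5 / 2 : k) ≠ 0 := by unfold UE10.bb UE10.cc; norm_num
      have hC' : Chg (Wt (UE10.bb (3 / 8 : k)) (UE10.cc (3 / 8)))
          (Wt (UE10.bb (5 / 2)) (UE10.cc (5 / 2)))
          (-1 / 4) (UE10.cc (3 / 8)) 5 (UE10.bb (3 / 8) - UE10.cc (3 / 8)) := by
        constructor <;> (try simp only [Wt, UE10.bb, UE10.cc]) <;> norm_num
      obtain ⟨x', y', j1, j2, j3, j4, j5⟩ := tateS_mul hg hP hb hC hb' hC' e3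
      have hz := zm_eq hP10 (m := 3) (m' := 7) (by norm_num)
      rw [hz] at j4
      exact ⟨hb', x', y', j2, j3.trans ((order_eq hz).trans h), j4, j5⟩

end

end Pool.Agent.FK4
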