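import Pool.Agent.Lib_helper24.FAM.LC
import Pool.Agent.Lib_helper87.FAM.TenS
import Pool.Agent.Lib_helper72.KX.T10t
import Pool.Agent.Lib_helper40.MC.J

/-!
# Only the constants, from a modular certificate
-/

set_option autoImplicit false
set_option linter.unusedSectionVars false
set_option linter.unusedVariables false

open scoped TensorProduct WithZero

namespace Pool.Agent.FK4

open Pool.Agent.MK4 WeierstrassCurve.Affine Pool.Agent.KC72
open Pool.Agent.TN (Wt Gen)
open Pool.Agent.UEG (P0)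

section cert

variable {k : Type*} [Field k] [DecidableEq k] {W W' : WeierstrassCurve.Affine k} {F : Type*}
  [Field F] [Algebra k F] {X Y x y : F} {H : AddSubgroup W.Point} {H' : AddSubgroup W'.Point}
  [CharZero k]

/-- only the constants, from a modular certificate -/
theorem only_certR {R : MC.RCert} (hR : MC.ROk R) {n r : ℕ} (hn : R.n = n) (hr : R.r = r)
    {cls : List (Mo × Mo)} (hcl : MC.sameC R.cls cls = true) {G : Fin n → F} (hrn : r ≤ n)
    (hsupp : ∀ i, Supp H' x y (G i))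
    (hk : ∀ i : Fin n, r ≤ i.val → ∃ c : k, G i = algebraMap k F c)
    (hM : ∀ (e : Fin r → ℤ) (c : k), c ≠ 0 →
      ∏ i, G (Fin.castLE hrn i) ^ e i = algebraMap k F c → e = 0)
    (hc : ∀ e : Fin n → ℤ, (∀ i : Fin n, i.val < r → e i = 0) → ∏ i, G i ^ e i = 1 → e = 0)
    (hs : Sols (List.ofFn G) cls)
    (hU : ∀ f, Supp H' x y f → Supp H' x y (1 - f) → sy f ∈ SC k F ⊔
      Submodule.span ℚ {a : B2 F | ∃ p ∈ cls, a = sy (ev (List.ofFn G) p.1)}) :
    OnlyConst H' x y := by
  have : CharZero F := charZero_of_injective_algebraMap (algebraMap k F).injective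
  have hG : ∀ i, G i ≠ 0 := fun i => (hsupp i).1
  have hI := hI_of (k := k) hrn G hG hk hM
  have hJ := hJ_of (k := k) hrn G hG hI hc
  intro z hz hcz
  rw [sp_eq (U := Supp H' x y) (fun f => Iff.rfl)] at hz
  have key := MC.closed_of_rcertP hR hn hr hcl hG hk hI hJ hs (Supp H' x y) hU hz hcz
  rw [← TN.KC_eq]
  exact key

/-- the symbols of the solutions of the unit equation -/
lemma sy_mem_of {g : List F} (hg : ∀ z ∈ g, z ≠ 0) {cls : List (Mo × Mo)} (hs : Sols g cls) {f : F}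
    (h : (∃ c : k, f = algebraMap k F c) ∨ ∃ p ∈ cls, TN.Orb (ev g p.1) f) :
    sy f ∈ SC k F ⊔ Submodule.span ℚ {a : B2 F | ∃ p ∈ cls, a = sy (ev g p.1)} := by
  have : CharZero F := charZero_of_injective_algebraMap (algebraMap k F).injective
  rcases h with ⟨c, rfl⟩ | ⟨p, hp, ho⟩
  · exact Submodule.mem_sup_left (Submodule.subset_span ⟨c, rfl⟩)
  · have h1 : ev g p.1 ≠ 1 := by
      intro h2
      have HS := hs p hp
      rw [h2] at HS
      exact ev_ne hg p.2 (by linear_combination HS)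
    have h2 : sy (ev g p.1) ∈ SC k F ⊔
        Submodule.span ℚ {a : B2 F | ∃ p ∈ cls, a = sy (ev g p.1)} :=
      Submodule.mem_sup_right (Submodule.subset_span ⟨p, hp, rfl⟩)
    rcases TN.sy_orb h1 ho with h4 | h4
    · rw [h4]; exact h2
    · rw [h4]; exact Submodule.neg_mem _ h2

end cert

section ten

variable {k : Type*} [Field k] [DecidableEq k] [CharZero k] {W : WeierstrassCurve.Affine k}
  {F : Type*} [Field F] [Algebra k F] {X Y : F}

/-- a point of order ten: only the constants, from a modular certificate -/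
theorem only10 (hg : Generic W X Y) {P : W.Point} {t : k} (ht : t ≠ 0) (ht1 : t - 1 ≠ 0)
    (ht2 : 2 * t - 1 ≠ 0) (hu : t ^ 2 - 3 * t + 1 ≠ 0) (h10 : To10t t P X Y)
    {R : MC.RCert} (hR : MC.ROk R) {n : ℕ} (hn : R.n = n) (hr : R.r = 9)
    {cls : List (Mo × Mo)} (hcl : MC.sameC R.cls cls = true) (h9 : 9 ≤ n)
    {B C : k} (hB : UE10.bb t = B) (hC : UE10.cc t = C) {G : F → F → Fin n → F}
    (hG : ∀ (x y : F) (j : Fin 9), G x y (Fin.castLE h9 j) = UE10B.uF t x y j)
    (hk : ∀ (x y : F) (i : Fin n), 9 ≤ i.val → ∃ c : k, G x y i = algebraMap k F c)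
    (hne : ∀ {x y : F}, Gen B C x y → ∀ i, G x y i ≠ 0)
    (hc : ∀ {x y : F}, Gen B C x y → ∀ e : Fin n → ℤ, (∀ i : Fin n, i.val < 9 → e i = 0) →
      ∏ i, G x y i ^ e i = 1 → e = 0)
    (hs : ∀ {x y : F}, Gen B C x y → Sols (List.ofFn (G x y)) cls)
    (hU : ∀ {x y : F}, Gen B C x y → ∀ f : F,
      (∃ (c : k) (n : Fin 9 → ℤ), c ≠ 0 ∧ f = algebraMap k F c * ∏ j, UE10B.uF t x y j ^ n j) →
      (∃ (c : k) (n : Fin 9 → ℤ), c ≠ 0 ∧
        1 - f = algebraMap k F c * ∏ j, UE10B.uF t x y j ^ n j) →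
      sy f ∈ SC k F ⊔
        Submodule.span ℚ {a : B2 F | ∃ p ∈ cls, a = sy (ev (List.ofFn (G x y)) p.1)}) :
    ClosedIn (AddSubgroup.zmultiples P) X Y ⊥ := by
  obtain ⟨hb, x, y, h, hO, hS, htop⟩ := h10
  have hgen : Gen B C x y := by
    have := UE4.of_UEG h.toU
    rwa [hB, hC] at this
  have hs10 := supp10 ht ht1 ht2 hu hO h
  refine closedIn_bot hg (hS.toSame.onlyConst.mpr ?_)
  refine only_certR hR hn hr hcl (G := G x y) h9 ?_ (hk x y) ?_ (hc hgen) (hs hgen)
    (fun f h1 h2 => hU hgen f ((hs10 f).mp h1) ((hs10 _).mp h2))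
  · intro i
    by_cases hi : i.val < 9
    · have e : G x y i = UE10B.uF t x y ⟨i.val, hi⟩ := by rw [← hG]; rfl
      rw [e, hs10]
      refine ⟨1, Pi.single ⟨i.val, hi⟩ 1, one_ne_zero, ?_⟩
      rw [map_one, one_mul, Finset.prod_eq_single (⟨i.val, hi⟩ : Fin 9)]
      · rw [Pi.single_eq_same, zpow_one]
      · intro j _ hj
        rw [Pi.single_eq_of_ne hj, zpow_zero]
      · intro hj; exact absurd (Finset.mem_univ _) hj
    · obtain ⟨c, e⟩ := hk x y i (not_lt.mp hi)
      have hc0 : c ≠ 0 := by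
        rintro rfl
        exact hne hgen i (by rw [e, map_zero])
      rw [e]
      exact supp_const hc0
  · intro e c _ he
    simp only [hG] at he
    exact UE10B.const10 ht ht1 ht2 hu hO h.toU he

end ten

end Pool.Agent.FK4
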