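import Pool.Agent.Lib_helper72.KX.Fs

/-!
# A point of order ten: packed systems
-/

set_option autoImplicit false
set_option linter.unusedSectionVars false
set_option linter.unusedSimpArgs false
set_option linter.unusedVariables false

namespace Pool.Agent.KX

open KC72
open Pool.Agent.K7 (dot pos neg rot mkD)

/-- the difference of two sums of products -/
noncomputable def dpj (l : List ℤ) : List ℕ → ℕ → ℕ → (ℕ → ℕ → Bool) → Bool :=
  List.rec (motive := fun _ => List ℕ → ℕ → ℕ → (ℕ → ℕ → Bool) → Bool) (fun _ p q k => k p q)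
    (fun a _ ih m p q k => List.rec (motive := fun _ => Bool) (k p q) (fun r rs _ =>
      Int.rec (motive := fun _ => Bool) (fun n => ih rs (Nat.add p (Nat.mul n r)) q k)
        (fun n => ih rs p (Nat.add q (Nat.mul (Nat.succ n) r)) k) a) m) l

lemma dpj_spec (k : ℕ → ℕ → Bool) : ∀ (l : List ℤ) (m : List ℕ) (p q : ℕ), ∃ P Q : ℕ,
    dpj l m p q k = k P Q ∧ (P : ℤ) - Q = (p : ℤ) - q + dotZ l (m.map (fun r : ℕ => (r : ℤ))) := by
  intro l
  induction l with
  | nil =>
    intro m p q
    refine ⟨p, q, rfl, ?_⟩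
    have : dotZ [] (m.map (fun r : ℕ => (r : ℤ))) = 0 := by cases m <;> rfl
    rw [this, add_zero]
  | cons a l ih =>
    intro m p q
    cases m with
    | nil =>
      refine ⟨p, q, rfl, ?_⟩
      have : dotZ (a :: l) ([] : List ℤ) = 0 := rfl
      rw [List.map_nil, this, add_zero]
    | cons r rs =>
      rcases a with n | n
      · obtain ⟨P, Q, h1, h2⟩ := ih rs (Nat.add p (Nat.mul n r)) q
        refine ⟨P, Q, h1, ?_⟩
        rw [h2, List.map_cons]
        show ((p + n * r : ℕ) : ℤ) - q + dotZ l _ = (p : ℤ) - q + (Int.ofNat n * (r : ℤ) + dotZ l _)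
        push_cast
        rw [Int.ofNat_eq_natCast]
        ring
      · obtain ⟨P, Q, h1, h2⟩ := ih rs p (Nat.add q (Nat.mul (Nat.succ n) r))
        refine ⟨P, Q, h1, ?_⟩
        rw [h2, List.map_cons]
        show (p : ℤ) - ((q + (n + 1) * r : ℕ) : ℤ) + dotZ l _ =
          (p : ℤ) - q + (Int.negSucc n * (r : ℤ) + dotZ l _)
        push_cast
        rw [Int.negSucc_eq]
        ring

/-- the sum of the absolute values -/
noncomputable def sbn (l : List ℤ) : ℕ → ℕ :=
  List.rec (motive := fun _ => ℕ → ℕ) (fun s => s) (fun a _ ih s =>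
    Int.rec (motive := fun _ => ℕ) (fun n => ih (Nat.add s n)) (fun n => ih (Nat.succ (Nat.add s n))) a) l

lemma sbn_eq : ∀ (l : List ℤ) (s : ℕ), ((sbn l s : ℕ) : ℤ) = (s : ℤ) + sab l := by
  intro l
  induction l with
  | nil => intro s; show (s : ℤ) = s + 0; rw [add_zero]
  | cons a l ih =>
    intro s
    rcases a with n | n
    · show ((sbn l (s + n) : ℕ) : ℤ) = s + (|Int.ofNat n| + sab l)
      rw [ih]
      have : |Int.ofNat n| = (n : ℤ) := by rw [Int.ofNat_eq_natCast]; exact abs_of_nonneg (by positivity)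
      rw [this]; push_cast; ring
    · show ((sbn l (s + n + 1) : ℕ) : ℤ) = s + (|Int.negSucc n| + sab l)
      rw [ih]
      have : |Int.negSucc n| = (n : ℤ) + 1 := by
        rw [Int.negSucc_eq, abs_neg]
        exact abs_of_nonneg (by positivity)
      rw [this]; push_cast; ring

/-- packed rows -/
structure Pk where
  /-- the base -/
  B : ℕ
  /-- the modulus -/
  N : ℕ
  /-- the bound of the entries -/
  M : ℕ
  /-- the powers of the base -/
  PB : List ℕ
  /-- the packed rows of the coefficients at the points -/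
  KT : List (List ℕ)
  /-- the packed rows of the exponents -/
  NT : List (List ℕ)

/-- the packed rows for a zero of order `a` -/
def vRP (T : List (List ℕ)) (a p : ℕ) : List ℕ :=
  (T.getD p []).drop (bif Nat.beq a 11 then 1 else Nat.sub 11 a)

/-- the packed rows for the points -/
noncomputable def rwsP (P : Pk) : List (Fin 10) → List ℕ → List ℕ
  | p :: ps, a :: as => P.PB.getD p.val 0 ::
      (P.NT.map (fun T => Nat.add (T.getD 0 0) (Nat.sub P.N (T.getD p.val 0))) ++
      (vRP P.KT a p.val ++ rwsP P ps as))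
  | _, _ => []

/-- all packed rows -/
noncomputable def RwP (P : Pk) (ps : List (Fin 10)) (as : List ℕ) : List ℕ :=
  P.PB.foldr Nat.add 0 :: rwsP P ps as

/-- bounded entries -/
def bdB (M : ℤ) (l : List ℤ) : Bool := l.all (fun x => decide (|x| ≤ M))

/-- the table of packed rows is correct -/
structure Pk.Ok (P : Pk) (C : Dat) : Prop where
  PB : P.PB = ix10.map (fun i => P.B ^ i.val)
  KT : P.KT = ix10.map (fun s => ix11.map (fun m => (pk P.B (rowZ (C.kap m) s) % P.N).toNat))
  NT : P.NT = C.nus.map (fun ν => ix10.map (fun s => (pk P.B (rowZ ν s) % P.N).toNat))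
  bk : ix11.all (fun m => bdB P.M (tl (C.kap m))) = true
  bn : C.nus.all (fun ν => bdB P.M ((tl ν).map (fun x => 2 * x))) = true
  b1 : Nat.ble 1 P.M = true
  bN : Nat.ble (P.B ^ 10) P.N = true
  b0 : Nat.ble 1 P.B = true

lemma ix10_getD {α : Type*} (f : Fin 10 → α) (p : Fin 10) (d : α) :
    (ix10.map f).getD p.val d = f p := by
  fin_cases p <;> rfl

lemma pk_sgl (B : ℤ) (c : ℕ) (s : ℤ) : pk B (sgl c s) = B ^ c * s := by
  unfold sgl
  induction c with
  | zero => simp [pk]
  | succ c ih =>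
    rw [List.replicate_succ, List.cons_append, pk, ih, pow_succ]
    ring

lemma pk_e8 (B : ℤ) (p : Fin 10) : pk B (e8 p) = B ^ p.val := by
  fin_cases p <;> simp [e8, tl, pk] <;> ring

lemma pk_subL (B : ℤ) : ∀ x y : List ℤ, x.length = y.length →
    pk B (subL x y) = pk B x - pk B y := by
  intro x
  induction x with
  | nil =>
    intro y h
    have : y = [] := List.length_eq_zero_iff.mp h.symm
    subst this
    simp [subL, pk]
  | cons a x ih =>
    intro y h
    cases y with
    | nil => simp at h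
    | cons b y =>
      show (a - b) + B * pk B (subL x y) = (a + B * pk B x) - (b + B * pk B y)
      rw [ih y (by simpa using h)]
      ring

/-- congruent to the packed row -/
def Cg (P : Pk) (r : ℕ) (R : List ℤ) : Prop := (P.N : ℤ) ∣ (r : ℤ) - pk P.B R

lemma N_pos {P : Pk} {C : Dat} (h : P.Ok C) : 0 < P.N := by
  have h1 := Nat.le_of_ble_eq_true h.bN
  have h2 := Nat.le_of_ble_eq_true h.b0
  exact lt_of_lt_of_le (pow_pos h2 10) h1

lemma cg_mod {P : Pk} {C : Dat} (h : P.Ok C) (x : ℤ) :
    (P.N : ℤ) ∣ (((x % P.N).toNat : ℕ) : ℤ) - x := by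
  have hN : (0 : ℤ) < P.N := by exact_mod_cast N_pos h
  rw [Int.toNat_of_nonneg (Int.emod_nonneg _ hN.ne')]
  have := Int.emod_add_mul_ediv x P.N
  exact ⟨-(x / P.N), by linarith⟩

lemma vR_drop (C : Dat) (a : ℕ) (ha : 1 ≤ a) (p : Fin 10) : vR C a p =
    (ix11.drop (bif Nat.beq a 11 then 1 else Nat.sub 11 a)).map (fun m => rowZ (C.kap m) p) := by
  unfold vR
  congr 1
  rcases Nat.lt_or_ge a 12 with h | h
  · interval_cases a <;> decide +kernel
  · have e1 : ix11.filter (fun m => decide (11 - (a : ℤ) < ordm m)) = ix11 := by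
      rw [List.filter_eq_self]
      intro m _
      rw [decide_eq_true_eq]
      have : ∀ m : Fin 11, 0 ≤ ordm m := by decide
      have := this m
      omega
    have e2 : Nat.beq a 11 = false := by
      cases h3 : Nat.beq a 11
      · rfl
      · have := Nat.eq_of_beq_eq_true h3; omega
    have e3 : Nat.sub 11 a = 0 := by
      show 11 - a = 0
      omega
    rw [e1, e2, cond_false, e3, List.drop_zero]

lemma vRP_cg {P : Pk} {C : Dat} (h : P.Ok C) (a : ℕ) (ha : 1 ≤ a) (p : Fin 10) :
    List.Forall₂ (Cg P) (vRP P.KT a p.val) (vR C a p) := by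
  rw [vR_drop C a ha]
  unfold vRP
  rw [h.KT, ix10_getD, ← List.map_drop]
  rw [List.forall₂_map_left_iff, List.forall₂_map_right_iff, List.forall₂_same]
  intro m _
  exact cg_mod h _

lemma forall2_append {α β : Type*} {R : α → β → Prop} : ∀ {a : List α} {b : List β} {c : List α}
    {d : List β}, List.Forall₂ R a b → List.Forall₂ R c d → List.Forall₂ R (a ++ c) (b ++ d) := by
  intro a b c d h1 h2
  induction h1 with
  | nil => exact h2
  | cons h _ ih => exact List.Forall₂.cons h ih

lemma rwsP_cg {P : Pk} {C : Dat} (h : P.Ok C) : ∀ (ps : List (Fin 10)) (as : List ℕ),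
    (∀ a ∈ as, 1 ≤ a) → List.Forall₂ (Cg P) (rwsP P ps as) (rws C ps as) := by
  intro ps
  induction ps with
  | nil => intro as _; cases as <;> exact List.Forall₂.nil
  | cons p ps ih =>
    intro as ha
    cases as with
    | nil => exact List.Forall₂.nil
    | cons a as =>
      refine List.Forall₂.cons ?_ (forall2_append ?_ (forall2_append
        (vRP_cg h a (ha a List.mem_cons_self) p)
        (ih as fun b hb => ha b (List.mem_cons_of_mem _ hb))))
      · unfold Cg
        rw [pk_e8, h.PB, ix10_getD]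
        push_cast
        rw [sub_self]
        exact dvd_zero _
      · rw [h.NT, List.map_map, List.forall₂_map_left_iff, List.forall₂_map_right_iff,
          List.forall₂_same]
        intro ν _
        unfold Cg
        simp only [Function.comp_apply]
        rw [pk_subL _ _ _ (by rw [rowZ_eq, rowZ_eq]; rfl)]
        have k0 := ix10_getD (fun s => (pk P.B (rowZ ν s) % P.N).toNat) 0 0
        have kp := ix10_getD (fun s => (pk P.B (rowZ ν s) % P.N).toNat) p 0
        rw [kp]
        have k0' : (ix10.map (fun s => (pk P.B (rowZ ν s) % P.N).toNat)).getD 0 0 =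
          (pk P.B (rowZ ν 0) % P.N).toNat := k0
        rw [k0']
        have hN : (0 : ℤ) < P.N := by exact_mod_cast N_pos h
        have hle : (pk P.B (rowZ ν p) % P.N).toNat ≤ P.N := by
          have := Int.emod_lt_of_pos (pk P.B (rowZ ν p)) hN
          omega
        have c0 := cg_mod h (pk P.B (rowZ ν 0))
        have cp := cg_mod h (pk P.B (rowZ ν p))
        show (P.N : ℤ) ∣ (((pk P.B (rowZ ν 0) % P.N).toNat + (P.N - (pk P.B (rowZ ν p) % P.N).toNat) : ℕ) : ℤ) -
          (pk P.B (rowZ ν 0) - pk P.B (rowZ ν p))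
        rw [Nat.cast_add, Nat.cast_sub hle]
        have e : (((pk P.B (rowZ ν 0) % P.N).toNat : ℕ) : ℤ) +
            ((P.N : ℤ) - (((pk P.B (rowZ ν p) % P.N).toNat : ℕ) : ℤ)) -
            (pk P.B (rowZ ν 0) - pk P.B (rowZ ν p)) =
            (P.N : ℤ) + ((((pk P.B (rowZ ν 0) % P.N).toNat : ℕ) : ℤ) - pk P.B (rowZ ν 0)) -
            ((((pk P.B (rowZ ν p) % P.N).toNat : ℕ) : ℤ) - pk P.B (rowZ ν p)) := by ring
        rw [e]
        exact dvd_sub (dvd_add (dvd_refl _) c0) cp

lemma RwP_cg {P : Pk} {C : Dat} (h : P.Ok C) (ps : List (Fin 10)) (as : List ℕ)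
    (ha : ∀ a ∈ as, 1 ≤ a) : List.Forall₂ (Cg P) (RwP P ps as) (Rw C ps as) := by
  refine List.Forall₂.cons ?_ (rwsP_cg h ps as ha)
  unfold Cg
  have e : ((P.PB.foldr Nat.add 0 : ℕ) : ℤ) = pk P.B (tl fun _ => 1) := by
    rw [h.PB]
    show ((P.B ^ 0 + (P.B ^ 1 + (P.B ^ 2 + (P.B ^ 3 + (P.B ^ 4 + (P.B ^ 5 + (P.B ^ 6 + (P.B ^ 7 +
      (P.B ^ 8 + (P.B ^ 9 + 0))))))))) : ℕ) : ℤ) = _
    simp only [tl, pk]
    push_cast
    ring
  rw [e, sub_self]
  exact dvd_zero _

lemma dotZ_cg {P : Pk} : ∀ (mu : List ℤ) {RN : List ℕ} {R : List (List ℤ)},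
    List.Forall₂ (Cg P) RN R →
    (P.N : ℤ) ∣ dotZ mu (RN.map (fun r : ℕ => (r : ℤ))) - dotZ mu (R.map (pk P.B)) := by
  intro mu
  induction mu with
  | nil =>
    intro RN R h
    have : ∀ l : List ℤ, dotZ [] l = 0 := by intro l; cases l <;> rfl
    rw [this, this, sub_self]
    exact dvd_zero _
  | cons a mu ih =>
    intro RN R h
    cases h with
    | nil => simp [dotZ]
    | cons h1 h2 =>
      rename_i r R0 rs Rs
      rw [List.map_cons, List.map_cons]
      have e : dotZ (a :: mu) ((r : ℤ) :: rs.map (fun r : ℕ => (r : ℤ))) -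
          dotZ (a :: mu) (pk P.B R0 :: Rs.map (pk P.B)) =
          a * ((r : ℤ) - pk P.B R0) + (dotZ mu (rs.map (fun r : ℕ => (r : ℤ))) -
            dotZ mu (Rs.map (pk P.B))) := by
        show (a * (r : ℤ) + dotZ mu _) - (a * pk P.B R0 + dotZ mu _) = _
        ring
      rw [e]
      exact dvd_add (Dvd.dvd.mul_left h1 a) (ih h2)

lemma bd_tl {M : ℤ} {f : Fin 10 → ℤ} (h : ∀ s, |f s| ≤ M) : bd M (tl f) := by
  intro x hx
  unfold tl at hx
  simp only [List.mem_cons, List.not_mem_nil, or_false] at hx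
  rcases hx with rfl | rfl | rfl | rfl | rfl | rfl | rfl | rfl | rfl | rfl <;>
    exact h _

lemma of_bdB {M : ℤ} {f : Fin 10 → ℤ} (h : bdB M (tl f) = true) (s : Fin 10) : |f s| ≤ M := by
  unfold bdB at h
  rw [List.all_eq_true] at h
  have := h (f s) (by fin_cases s <;> simp [tl])
  rwa [decide_eq_true_eq] at this

lemma bd_row {P : Pk} {C : Dat} (h : P.Ok C) (ps : List (Fin 10)) (as : List ℕ) :
    ∀ r ∈ Rw C ps as, bd P.M r ∧ r.length ≤ 10 := by
  have hM : (1 : ℤ) ≤ P.M := by exact_mod_cast Nat.le_of_ble_eq_true h.b1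
  have hk : ∀ m s, |C.kap m s| ≤ P.M := by
    intro m s
    have h1 := h.bk
    rw [List.all_eq_true] at h1
    exact of_bdB (h1 m (by fin_cases m <;> simp [ix11])) s
  have hn : ∀ ν ∈ C.nus, ∀ s, |2 * ν s| ≤ P.M := by
    intro ν hν s
    have h1 := h.bn
    rw [List.all_eq_true] at h1
    exact of_bdB (f := fun s => 2 * ν s) (h1 ν hν) s
  have hws : ∀ (ps : List (Fin 10)) (as : List ℕ), ∀ r ∈ rws C ps as, bd P.M r ∧ r.length ≤ 10 := by
    intro ps
    induction ps with
    | nil => intro as r hr; cases as <;> simp [rws] at hr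
    | cons p ps ih =>
      intro as r hr
      cases as with
      | nil => simp [rws] at hr
      | cons a as =>
        unfold rws at hr
        rw [List.mem_cons, List.mem_append, List.mem_append, List.mem_map] at hr
        rcases hr with rfl | ⟨ν, hν, rfl⟩ | hr | hr
        · unfold e8
          refine ⟨bd_tl fun s => ?_, le_refl _⟩
          split_ifs
          · rw [abs_one]; exact hM
          · rw [abs_zero]; linarith
        · rw [rowZ_eq, rowZ_eq, subL_tl]
          refine ⟨bd_tl fun s => ?_, le_refl _⟩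
          have h1 := hn ν hν (s - 0)
          have h2 := hn ν hν (s - p)
          rw [abs_mul, abs_two] at h1 h2
          refine (abs_sub _ _).trans ?_
          linarith
        · unfold vR at hr
          rw [List.mem_map] at hr
          obtain ⟨m, -, rfl⟩ := hr
          rw [rowZ_eq]
          exact ⟨bd_tl fun s => hk m _, le_refl _⟩
        · exact ih as r hr
  intro r hr
  unfold Rw at hr
  rcases List.mem_cons.mp hr with rfl | hr
  · refine ⟨bd_tl fun s => ?_, le_refl _⟩
    rw [abs_one]; exact hM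
  · exact hws ps as r hr

lemma axpy_length (a : ℤ) : ∀ x y : List ℤ, (axpy a x y).length = max x.length y.length := by
  intro x
  induction x with
  | nil => intro y; simp [axpy]
  | cons b x ih =>
    intro y
    cases y with
    | nil =>
      show (axpy a x []).length + 1 = max (x.length + 1) 0
      rw [ih]; simp
    | cons c y =>
      show (axpy a x y).length + 1 = max (x.length + 1) (y.length + 1)
      rw [ih]; omega

lemma comb_length {L : ℕ} : ∀ (c : List ℤ) {V : List (List ℤ)}, (∀ v ∈ V, v.length ≤ L) →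
    (comb c V).length ≤ L := by
  intro c
  induction c with
  | nil => intro V _; simp [comb]
  | cons a c ih =>
    intro V hV
    cases V with
    | nil => simp [comb]
    | cons v V =>
      unfold comb
      have h1 := ih (V := V) fun w hw => hV w (List.mem_cons_of_mem _ hw)
      split_ifs
      · exact h1
      · rw [axpy_length]
        exact max_le (hV v List.mem_cons_self) h1

lemma abs_pk_lt {B M : ℤ} (hB : 2 * M < B) (hB1 : 1 ≤ B) : ∀ v : List ℤ, bd M v →
    |pk B v| ≤ B ^ v.length - 1 := by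
  intro v
  induction v with
  | nil => intro _; simp [pk]
  | cons x v ih =>
    intro hv
    have h1 := ih fun z hz => hv z (List.mem_cons_of_mem _ hz)
    have h2 : |x| ≤ M := hv x List.mem_cons_self
    have hM : 0 ≤ M := (abs_nonneg x).trans h2
    rw [pk, List.length_cons, pow_succ]
    have h3 : |B * pk B v| ≤ B * (B ^ v.length - 1) := by
      rw [abs_mul, abs_of_nonneg (by linarith : (0 : ℤ) ≤ B)]
      exact mul_le_mul_of_nonneg_left h1 (by linarith)
    have h4 := abs_add_le x (B * pk B v)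
    nlinarith

lemma isZ_of_mod {B M N : ℤ} (hB : 2 * M < B) (hB1 : 1 ≤ B) (hN : B ^ 10 ≤ N) {v : List ℤ}
    (hv : bd M v) (hl : v.length ≤ 10) (h : N ∣ pk B v) : isZ v = true := by
  refine isZ_of_pk hB hv ?_
  by_contra hne
  have h1 := Int.le_of_dvd (abs_pos.mpr hne) ((dvd_abs N _).mpr h)
  have h2 := abs_pk_lt hB hB1 v hv
  have h3 : B ^ v.length ≤ B ^ 10 := pow_le_pow_right₀ hB1 hl
  linarith

/-- the check of one coordinate -/
noncomputable def okC1 (P : Pk) (RP fP : List ℕ) (den : ℕ) (b mu : List ℤ) (Bi : ℕ) : Bool :=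
  and (dpj mu RP 0 0 (fun p q => dpj b fP p q (fun p q =>
    Nat.beq (Nat.mod (Nat.add (Nat.mul den Bi) q) P.N) (Nat.mod p P.N))))
  (Nat.ble (Nat.succ (Nat.mul 2 (Nat.add (Nat.mul (sbn mu 0) P.M) (Nat.add den (sbn b 0))))) P.B)

/-- the check of the coordinates -/
noncomputable def okCs (P : Pk) (RP fP : List ℕ) (den : ℕ) :
    List (List ℤ) → List (List ℤ) → List ℕ → Bool
  | b :: bs, m :: ms, Bi :: Bs => and (okC1 P RP fP den b m Bi) (okCs P RP fP den bs ms Bs)
  | [], [], [] => true
  | _, _, _ => false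

/-- the packed check of the multipliers -/
noncomputable def Sys.okP (S : Sys) (P : Pk) (d : ℕ) (RP : List ℕ) : Bool :=
  and (not (Nat.beq d 0)) (and (ieq S.den (Int.ofNat d)) (and (S.fr.all (fun f => Nat.ble f 9))
    (okCs P RP (S.fr.map (fun f => P.PB.getD f 0)) d S.B S.mu P.PB)))

lemma okCs_spec {P : Pk} {RP fP : List ℕ} {den : ℕ} : ∀ {bs ms : List (List ℤ)}
    {Bs : List ℕ}, okCs P RP fP den bs ms Bs = true → bs.length = Bs.length ∧
    ms.length = Bs.length ∧
    ∀ j < bs.length, okC1 P RP fP den (bs.getD j []) (ms.getD j []) (Bs.getD j 0) = true := by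
  intro bs
  induction bs with
  | nil =>
    intro ms Bs h
    cases ms with
    | nil =>
      cases Bs with
      | nil => exact ⟨rfl, rfl, fun j hj => absurd hj (Nat.not_lt_zero j)⟩
      | cons B Bs => exact absurd h (by simp [okCs])
    | cons m ms => exact absurd h (by simp [okCs])
  | cons b bs ih =>
    intro ms Bs h
    cases ms with
    | nil => exact absurd h (by simp [okCs])
    | cons m ms =>
      cases Bs with
      | nil => exact absurd h (by simp [okCs])
      | cons B Bs =>
        unfold okCs at h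
        rw [Bool.and_eq_true] at h
        obtain ⟨i1, i2, i3⟩ := ih h.2
        refine ⟨by rw [List.length_cons, List.length_cons, i1],
          by rw [List.length_cons, List.length_cons, i2], fun j hj => ?_⟩
        rcases j with _ | j
        · exact h.1
        · exact i3 j (by rw [List.length_cons] at hj; omega)

lemma sab_map_neg (l : List ℤ) : sab (l.map (fun x => -x)) = sab l := by
  induction l with
  | nil => rfl
  | cons a l ih =>
    rw [List.map_cons]
    show |(-a)| + sab _ = |a| + sab l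
    rw [abs_neg, ih]

lemma dotZ_neg (l m : List ℤ) : dotZ (l.map (fun x => -x)) m = - dotZ l m := by
  induction l generalizing m with
  | nil => simp [dotZ]
  | cons a l ih =>
    cases m with
    | nil => simp [dotZ]
    | cons b m =>
      rw [List.map_cons]
      show -a * b + dotZ _ m = -(a * b + dotZ l m)
      rw [ih]; ring

lemma bd_sgl1 (c : ℕ) (s : ℤ) : bd |s| (sgl c s) := by
  intro x hx
  unfold sgl at hx
  rw [List.mem_append, List.mem_replicate, List.mem_singleton] at hx
  rcases hx with ⟨-, rfl⟩ | rfl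
  · rw [abs_zero]; exact abs_nonneg s
  · exact le_refl _

theorem Sys.ok_of {S : Sys} {P : Pk} {C : Dat} (h : P.Ok C) {ps : List (Fin 10)} {as : List ℕ}
    (ha : ∀ a ∈ as, 1 ≤ a) {d : ℕ}
    (hS : S.okP P d (RwP P ps as) = true) : S.ok (Rw C ps as) = true := by
  unfold Sys.okP at hS
  simp only [Bool.and_eq_true, Bool.not_eq_true'] at hS
  obtain ⟨h0, h1, hf, h3⟩ := hS
  have hd0 : d ≠ 0 := by rintro rfl; exact absurd h0 (by decide)
  have hden : S.den = Int.ofNat d := ieq_eq h1
  obtain ⟨l1, l2, l3⟩ := okCs_spec h3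
  have lB : P.PB.length = 10 := by rw [h.PB]; rfl
  rw [lB] at l1 l2
  have hB1 : (1 : ℤ) ≤ P.B := by exact_mod_cast Nat.le_of_ble_eq_true h.b0
  have hN : (P.B : ℤ) ^ 10 ≤ P.N := by exact_mod_cast Nat.le_of_ble_eq_true h.bN
  have hM : (0 : ℤ) ≤ P.M := by positivity
  unfold Sys.ok
  rw [Bool.and_eq_true, Bool.and_eq_true, decide_eq_true_eq, decide_eq_true_eq, List.all_eq_true]
  refine ⟨by rw [hden, Int.ofNat_eq_natCast]; intro hh; exact hd0 (by exact_mod_cast hh), l1, fun i hi => ?_⟩
  rw [List.mem_range] at hi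
  have k1 := l3 i (by omega)
  unfold okC1 at k1
  rw [Bool.and_eq_true] at k1
  obtain ⟨k1, k2⟩ := k1
  set b := S.B.getD i [] with hb
  set mu := S.mu.getD i [] with hmu
  have k2 : 2 * (sbn mu 0 * P.M + (d + sbn b 0)) < P.B := Nat.le_of_ble_eq_true k2
  have k2' : 2 * (sab mu * P.M + ((d : ℤ) + sab b)) < (P.B : ℤ) := by
    have e1 := sbn_eq mu 0
    have e2 := sbn_eq b 0
    rw [Nat.cast_zero, zero_add] at e1 e2
    rw [← e1, ← e2]
    exact_mod_cast k2
  have hsgl : ∀ v ∈ S.fr.map (fun f => sgl f 1), bd 1 v ∧ v.length ≤ 10 := by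
    intro v hv
    rw [List.mem_map] at hv
    obtain ⟨f, hf', rfl⟩ := hv
    rw [List.all_eq_true] at hf
    have h4 := Nat.le_of_ble_eq_true (hf f hf')
    refine ⟨?_, ?_⟩
    · have := bd_sgl1 f 1
      rwa [abs_one] at this
    · unfold sgl
      rw [List.length_append, List.length_replicate]
      show f + 1 ≤ 10
      omega
  have b1 := bd_comb hM mu (fun v hv => (bd_row h ps as v hv).1)
  have b2 := bd_comb (M := 1) (by norm_num) (b.map (fun x => -x)) (fun v hv => (hsgl v hv).1)
  rw [sab_map_neg, mul_one] at b2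
  have b3 := bd_axpy (abs_nonneg (1 : ℤ)) (sab_nonneg b) S.den (bd_sgl1 i 1) b2
  rw [abs_one, mul_one] at b3
  have b4 := bd_axpy (mul_nonneg (sab_nonneg mu) hM) (add_nonneg (abs_nonneg _) (sab_nonneg b)) (-1)
    b1 b3
  rw [abs_neg, abs_one, one_mul] at b4
  have hda : |S.den| = (d : ℤ) := by
    rw [hden, Int.ofNat_eq_natCast]; exact abs_of_nonneg (by positivity)
  rw [hda] at b4
  refine isZ_of_mod k2' hB1 hN b4 ?_ ?_
  · rw [axpy_length, axpy_length]
    refine max_le (comb_length _ fun v hv => (bd_row h ps as v hv).2) (max_le ?_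
      (comb_length _ fun v hv => (hsgl v hv).2))
    unfold sgl
    rw [List.length_append, List.length_replicate]
    show i + 1 ≤ 10
    omega
  · rw [pk_axpy, pk_comb, pk_axpy, pk_sgl, pk_comb, List.map_map, dotZ_neg]
    have e1 : S.fr.map (pk (P.B : ℤ) ∘ fun f => sgl f 1) =
        (S.fr.map (fun f => P.PB.getD f 0)).map (fun r : ℕ => (r : ℤ)) := by
      rw [List.map_map]
      refine List.map_congr_left fun f hf' => ?_
      simp only [Function.comp_apply]
      rw [pk_sgl, mul_one, h.PB]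
      rw [List.all_eq_true] at hf
      have h4 := Nat.le_of_ble_eq_true (hf f hf')
      have := ix10_getD (fun i : Fin 10 => P.B ^ i.val) ⟨f, by omega⟩ 0
      rw [this]
      push_cast
      rfl
    rw [e1]
    obtain ⟨p1, q1, f1, f2⟩ := dpj_spec (fun p q => dpj b (S.fr.map (fun f => P.PB.getD f 0)) p q
      (fun p q => Nat.beq (Nat.mod (Nat.add (Nat.mul d (P.PB.getD i 0)) q) P.N) (Nat.mod p P.N)))
      mu (RwP P ps as) 0 0
    rw [f1] at k1
    obtain ⟨p2, q2, f3, f4⟩ := dpj_spec (fun p q =>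
      Nat.beq (Nat.mod (Nat.add (Nat.mul d (P.PB.getD i 0)) q) P.N) (Nat.mod p P.N))
      b (S.fr.map (fun f => P.PB.getD f 0)) p1 q1
    rw [f3] at k1
    have k3 : (d * P.PB.getD i 0 + q2) % P.N = p2 % P.N := Nat.eq_of_beq_eq_true k1
    have k4 : (P.N : ℤ) ∣ ((d * P.PB.getD i 0 + q2 : ℕ) : ℤ) - (p2 : ℤ) :=
      (Nat.modEq_iff_dvd.mp (show p2 ≡ d * P.PB.getD i 0 + q2 [MOD P.N] from k3.symm))
    have hBi : ((P.PB.getD i 0 : ℕ) : ℤ) = (P.B : ℤ) ^ i := by
      rw [h.PB]
      have := ix10_getD (fun i : Fin 10 => P.B ^ i.val) ⟨i, hi⟩ 0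
      rw [this]
      push_cast
      rfl
    have k5 := dotZ_cg mu (RwP_cg h ps as ha)
    have e2 : -1 * dotZ mu ((Rw C ps as).map (pk (P.B : ℤ))) + (S.den * ((P.B : ℤ) ^ i * 1) +
        - dotZ b ((S.fr.map (fun f => P.PB.getD f 0)).map (fun r : ℕ => (r : ℤ)))) =
        (((d * P.PB.getD i 0 + q2 : ℕ) : ℤ) - (p2 : ℤ)) +
        (dotZ mu ((RwP P ps as).map (fun r : ℕ => (r : ℤ))) -
          dotZ mu ((Rw C ps as).map (pk (P.B : ℤ)))) := by
      rw [Nat.cast_add, Nat.cast_mul, hBi, hden, Int.ofNat_eq_natCast]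
      rw [Nat.cast_zero, sub_zero, zero_add] at f2
      linarith
    rw [e2]
    exact dvd_add k4 k5

/-- positive multiplicities -/
def ps1 (l : List ℕ) : Bool := l.all (fun a => Nat.ble 1 a)

/-- the fast check of a system without solutions -/
noncomputable def chkZP (P : Pk) (ps : List (Fin 10)) (e : List ℕ × Sys) (d : ℕ) : Bool :=
  and (ps1 e.1) (and (e.2.okP P d (RwP P ps e.1)) (and e.2.fr.isEmpty
    (leq (e.2.full []) [.ofNat 0, .ofNat 0, .ofNat 0,
    .ofNat 0, .ofNat 0, .ofNat 0, .ofNat 0, .ofNat 0, .ofNat 0, .ofNat 0])))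

lemma of_ps1 {l : List ℕ} (h : ps1 l = true) : ∀ a ∈ l, 1 ≤ a := by
  intro a ha
  unfold ps1 at h
  rw [List.all_eq_true] at h
  exact Nat.le_of_ble_eq_true (h a ha)

theorem chkZ_fast {P : Pk} {C : Dat} (h : P.Ok C) {ps : List (Fin 10)} {e : List ℕ × Sys} {d : ℕ}
    (he : chkZP P ps e d = true) : chkZ C ps e = true := by
  unfold chkZP at he
  rw [Bool.and_eq_true, Bool.and_eq_true, Bool.and_eq_true, List.isEmpty_iff] at he
  unfold chkZ
  rw [Bool.and_eq_true, Bool.and_eq_true]
  refine ⟨Sys.ok_of h (of_ps1 he.1) he.2.1, ?_, ?_⟩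
  · rw [he.2.2.1]; rfl
  · rw [leq_eq he.2.2.2]; rfl

/-- the fast check of a system with solutions -/
noncomputable def chkEP (P : Pk) (C : Dat) (look : List ℤ → List ℤ → Bool) (ps : List (Fin 10))
    (e : List ℕ × Sys) (d : ℕ) (t : ℤ) (M n : ℕ) (r ws : List ℤ) (cs : List (ℕ × ℕ × ℕ))
    (aL : List ℤ) : Bool :=
  and (ps1 e.1) (and (e.2.okP P d (RwP P ps e.1)) (and (frOK e.2)
    (enC C look ps e d t M n r ws cs aL)))

theorem chkE_fast' {P : Pk} {C : Dat} (h : P.Ok C) {look : List ℤ → List ℤ → Bool}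
    (hlook : ∀ D D' : List ℤ, D.length = 10 → D'.length = 10 → look D D' = true →
      lk C.look 10 D D' = true)
    {ps : List (Fin 10)} {e : List ℕ × Sys} {d : ℕ} {t : ℤ} {M n : ℕ}
    {r ws : List ℤ} {cs : List (ℕ × ℕ × ℕ)} {aL : List ℤ}
    (he : chkEP P C look ps e d t M n r ws cs aL = true) : chkE C ps e = true := by
  unfold chkEP at he
  rw [Bool.and_eq_true, Bool.and_eq_true, Bool.and_eq_true] at he
  exact chkE_fast hlook (Sys.ok_of h (of_ps1 he.1) he.2.1) he.2.2.1 he.2.2.2

end Pool.Agent.KX
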